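import Pool.Agent.H207.NL.Struct

/-!
# The case of a nonabelian minimal noncentral normal subgroup
-/

set_option autoImplicit false

namespace Pool.Agent.H207.NL

universe u

variable {G : Type u} [Group G]

/-- there is a walk for `U` in which every conjugate of `u` in `U` can be inserted -/
def Inv (A : Set G) (M W : Subgroup G) (u X : G) (U : Subgroup G) : Prop :=
  ∃ (L : ℕ) (x : ℕ → G), HW A U L x ∧ ∀ h ∈ M, h * u * h⁻¹ ∈ U →
    ∃ s < L, x s * (h * X)⁻¹ ∈ W ∧ (x s)⁻¹ * (h * u * h⁻¹ * x (s + 1)) ∈ A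

theorem inv_of [Finite G] {A : Set G} {M N W : Subgroup G} {u X : G}
    (hNW : N ≤ W)
    (hW : ∀ V : Subgroup G, N ≤ V → u ∈ V → W ≤ V)
    (hWc : ∀ a ∈ W, ∀ b ∈ W, a * b = b * a)
    (hsurj : ∀ z ∈ N, ∃ h ∈ M, h * u * h⁻¹ * u⁻¹ = z)
    (hbase : Inv A M W u X W) (U : Subgroup G) (huU : u ∈ U) (hUW : U ≤ W) :
    Inv A M W u X U := by
  classical
  induction U using WellFoundedGT.induction with
  | ind U ih =>
  by_cases hEq : U = W
  · subst hEq
    exact hbase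
  have huW : u ∈ W := hUW huU
  have hne : ({z | z ∈ N ∧ z ∉ U} : Set G).Nonempty := by
    by_contra h
    apply hEq
    refine le_antisymm hUW (hW U ?_ huU)
    intro z hz
    by_contra hzU
    exact h ⟨z, hz, hzU⟩
  obtain ⟨z, ⟨hzN, hzU⟩, hmin⟩ := Set.exists_min_image {z | z ∈ N ∧ z ∉ U}
    (fun z => Nat.card ↥(U ⊔ Subgroup.zpowers z)) (Set.toFinite _) hne
  have hnorm : ∀ g ∈ W, ∀ v ∈ U, g * v * g⁻¹ ∈ U := by
    intro g hg v hv
    rw [hWc g hg v (hUW hv)]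
    simpa using hv
  have hU1W : U ⊔ Subgroup.zpowers z ≤ W := sup_le hUW (by
    rw [Subgroup.zpowers_le]; exact hNW hzN)
  have hzU1 : z ∈ U ⊔ Subgroup.zpowers z :=
    (le_sup_right : _ ≤ U ⊔ Subgroup.zpowers z) (Subgroup.mem_zpowers z)
  have hlt : U < U ⊔ Subgroup.zpowers z := by
    refine lt_of_le_of_ne le_sup_left ?_
    intro h
    rw [← h] at hzU1
    exact hzU hzU1
  have hkey : ∀ g ∈ U ⊔ Subgroup.zpowers z, g ∉ U → ∀ w ∈ U ⊔ Subgroup.zpowers z,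
      ∃ j : ℕ, w * (g ^ j)⁻¹ ∈ U := by
    intro g hg hgU w hw
    obtain ⟨v, hv, i, hgi⟩ := mem_sup_zpowers (hnorm z (hNW hzN)) hg
    have hkiU : z ^ i ∉ U := by
      intro h
      apply hgU
      rw [hgi]
      exact U.mul_mem hv h
    have h1 := hmin (z ^ i) ⟨N.pow_mem hzN i, hkiU⟩
    have h2 : U ⊔ Subgroup.zpowers (z ^ i) ≤ U ⊔ Subgroup.zpowers z := by
      refine sup_le le_sup_left ?_
      rw [Subgroup.zpowers_le]
      exact Subgroup.pow_mem _ hzU1 i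
    have h3 : U ⊔ Subgroup.zpowers (z ^ i) = U ⊔ Subgroup.zpowers z :=
      Subgroup.eq_of_le_of_card_ge h2 h1
    have h4 : U ⊔ Subgroup.zpowers (z ^ i) ≤ U ⊔ Subgroup.zpowers g := by
      refine sup_le le_sup_left ?_
      rw [Subgroup.zpowers_le]
      have h5 : z ^ i = v⁻¹ * g := by rw [hgi]; group
      rw [h5]
      exact Subgroup.mul_mem _ ((le_sup_left : U ≤ _) (U.inv_mem hv))
        ((le_sup_right : _ ≤ U ⊔ Subgroup.zpowers g) (Subgroup.mem_zpowers g))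
    rw [← h3] at hw
    obtain ⟨v', hv', j, hj⟩ := mem_sup_zpowers (hnorm g (hU1W hg)) (h4 hw)
    refine ⟨j, ?_⟩
    rw [hj]
    simpa using hv'
  obtain ⟨L, x, hx, hav⟩ := ih _ hlt ((le_sup_left : U ≤ _) huU) hU1W
  have hLpos := hx.pos
  have hy : ∃ y : ℕ → G, HW A (U ⊔ Subgroup.zpowers z) L y ∧ y L ∉ U ∧
      ∀ h ∈ M, h * u * h⁻¹ ∈ U →
        ∃ s < L, y s * (h * X)⁻¹ ∈ W ∧ (y s)⁻¹ * (h * u * h⁻¹ * y (s + 1)) ∈ A := by
    by_cases hxL : x L ∈ U
    · obtain ⟨h, hhM, hh⟩ := hsurj z hzN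
      have hhu : h * u * h⁻¹ = z * u := by rw [← hh]; group
      set w : G := h * u * h⁻¹ with hw
      have hwU1 : w ∈ U ⊔ Subgroup.zpowers z := by
        rw [hhu]
        exact Subgroup.mul_mem _ hzU1 ((le_sup_left : U ≤ _) huU)
      have hwU : w ∉ U := by
        intro hcon
        apply hzU
        have h1 := U.mul_mem hcon (U.inv_mem huU)
        rw [hhu] at h1
        simpa using h1
      have hwW : w ∈ W := hU1W hwU1
      obtain ⟨s, hs, hsW, hsA⟩ := hav h hhM hwU1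
      refine ⟨shift x s w, hx.shift hs hwU1 hsA, ?_, ?_⟩
      · rw [shift_gt hs]
        intro hcon
        apply hwU
        have h1 := U.mul_mem hcon (U.inv_mem hxL)
        simpa using h1
      · intro h' hh'M hh'U
        obtain ⟨s', hs', hs'W, hs'A⟩ := hav h' hh'M ((le_sup_left : U ≤ _) hh'U)
        have hne' : s' ≠ s := by
          intro e
          subst e
          apply hwU
          have h1 : h' * h⁻¹ ∈ W := by
            have h2 := W.mul_mem (W.inv_mem hs'W) hsW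
            have h3 : (x s' * (h' * X)⁻¹)⁻¹ * (x s' * (h * X)⁻¹) = h' * h⁻¹ := by group
            rwa [h3] at h2
          have h4 : h' * u * h'⁻¹ = (h' * h⁻¹) * w * (h' * h⁻¹)⁻¹ := by rw [hw]; group
          rw [h4, hWc _ h1 _ hwW] at hh'U
          have h5 : w * (h' * h⁻¹) * (h' * h⁻¹)⁻¹ = w := by group
          rwa [h5] at hh'U
        refine ⟨s', hs', ?_, ?_⟩
        · obtain ⟨v, hv, e⟩ := shift_mem (x := x) (t := s) hwU1 s'
          rw [e, mul_assoc]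
          exact W.mul_mem (hU1W hv) hs'W
        · rcases lt_or_gt_of_ne hne' with hlt' | hgt'
          · rw [shift_le hlt'.le, shift_le (by omega)]
            exact hs'A
          · rw [shift_gt hgt', shift_gt (by omega)]
            have h6 := hWc _ (hUW hh'U) _ hwW
            have h7 : (w * x s')⁻¹ * (h' * u * h'⁻¹ * (w * x (s' + 1))) =
                (x s')⁻¹ * (h' * u * h'⁻¹ * x (s' + 1)) := by
              calc (w * x s')⁻¹ * (h' * u * h'⁻¹ * (w * x (s' + 1))) =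
                  (x s')⁻¹ * w⁻¹ * ((h' * u * h'⁻¹ * w) * x (s' + 1)) := by group
                _ = (x s')⁻¹ * w⁻¹ * ((w * (h' * u * h'⁻¹)) * x (s' + 1)) := by rw [h6]
                _ = _ := by group
            rw [h7]
            exact hs'A
    · refine ⟨x, hx, hxL, ?_⟩
      intro h hh hhU
      exact hav h hh ((le_sup_left : U ≤ _) hhU)
  obtain ⟨y, hy, hyL, hyav⟩ := hy
  obtain ⟨q, hq, hz⟩ := hy.rept (U := U) le_sup_left (hkey _ hy.last hyL)
  refine ⟨q * L, rept y L, hz, ?_⟩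
  intro h hh hhU
  obtain ⟨s, hs, h1, h2⟩ := hyav h hh hhU
  refine ⟨s, hs.trans_le (Nat.le_mul_of_pos_left L hq), ?_, ?_⟩
  · rw [rept_lt hs]
    exact h1
  · rw [rept_lt hs, rept_succ hy.zero hs]
    exact h2

theorem nonab [Finite G] {A : Set G} {M : Subgroup G} (hM : MinNC M) (hsol : Group.IsSolvable M)
    (hnab : ¬ ∀ a ∈ M, ∀ b ∈ M, a * b = b * a)
    (hAM : ∀ a ∈ A, ∀ m ∈ M, m⁻¹ * a * m ∈ A)
    {l : ℕ} {x0 : ℕ → G} (h0 : HW A M l x0) : ∃ (L : ℕ) (x : ℕ → G), HW A ⊥ L x := by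
  classical
  have hMn := hM.normal
  have hc := hM.comm_central hsol
  have hMN : ∀ a ∈ M, ∀ b ∈ M, a * b * a⁻¹ * b⁻¹ ∈ ⁅M, M⁆ := by
    intro a ha b hb
    exact Subgroup.commutator_mem_commutator ha hb
  have hMK : ∀ m ∈ M, ∀ g, m⁻¹ * g * m * g⁻¹ ∈ M := by
    intro m hm g
    have h1 : g * m * g⁻¹ ∈ M := hMn.conj_mem m hm g
    have h2 := M.mul_mem (M.inv_mem hm) h1
    have h3 : m⁻¹ * (g * m * g⁻¹) = m⁻¹ * g * m * g⁻¹ := by group
    rwa [h3] at h2
  have hK : ∀ U : Subgroup G, ⁅M, M⁆ ≤ U → (∀ m ∈ M, ∀ g, m⁻¹ * g * m * g⁻¹ ∈ U) → M ≤ U :=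
    fun U _ h => hM.comm_top hnab h
  have hNM : ⁅M, M⁆ ≤ M := Subgroup.commutator_le_left M M
  -- a noncentral available element
  obtain ⟨t, ht, -, m, hm, hmc⟩ := exists_avail (N := ⁅M, M⁆) le_rfl hMN l h0 hK
    (U := M ⊓ Subgroup.center G) (le_inf hNM hc) inf_le_left
    (fun h => hM.nc (by rw [← h]; exact inf_le_right))
  set u : G := m⁻¹ * (x0 (t + 1) * (x0 t)⁻¹) * m * (x0 (t + 1) * (x0 t)⁻¹)⁻¹ with hu
  have huM : u ∈ M := hMK m hm _
  have huc : u ∉ Subgroup.center G := fun h => hmc ⟨huM, h⟩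
  set W : Subgroup G := ⁅M, M⁆ ⊔ Subgroup.zpowers u with hWdef
  have hNW : ⁅M, M⁆ ≤ W := le_sup_left
  have huW : u ∈ W := (le_sup_right : _ ≤ W) (Subgroup.mem_zpowers u)
  have hWM : W ≤ M := sup_le hNM (by rwa [Subgroup.zpowers_le])
  have hWc : ∀ a ∈ W, ∀ b ∈ W, a * b = b * a := by
    have hn : ∀ v ∈ ⁅M, M⁆, u * v * u⁻¹ ∈ ⁅M, M⁆ := by
      intro v hv
      rw [central_conj (hc hv)]
      exact hv
    intro a ha b hb
    obtain ⟨v, hv, j, rfl⟩ := mem_sup_zpowers hn ha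
    obtain ⟨v', hv', j', rfl⟩ := mem_sup_zpowers hn hb
    have e1 := central_comm (hc hv) (u ^ j')
    have e2 := central_comm (hc hv') (v * u ^ j)
    calc v * u ^ j * (v' * u ^ j') = (v * u ^ j * v') * u ^ j' := by group
      _ = v' * (v * u ^ j) * u ^ j' := by rw [e2]
      _ = v' * (v * (u ^ j * u ^ j')) := by group
      _ = v' * (v * (u ^ j' * u ^ j)) := by rw [← pow_add, ← pow_add, add_comm]
      _ = v' * ((v * u ^ j') * u ^ j) := by group
      _ = v' * ((u ^ j' * v) * u ^ j) := by rw [e1]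
      _ = v' * u ^ j' * (v * u ^ j) := by group
  obtain ⟨L, x, hx, hlab⟩ := good_of (A := A) (M := M) (K := M) (N := ⁅M, M⁆) le_rfl hNM hMN hMK
    hAM t h0 hK W hNW hWM
  have hbase : Inv A M W u (x0 t) W := by
    refine ⟨L, x, hx, ?_⟩
    intro h hh hhW
    obtain ⟨s, hs, hsW⟩ := hx.cover (h * x0 t)
    have hw : x s * (h * x0 t)⁻¹ ∈ W := by
      have := W.inv_mem hsW
      simpa using this
    refine ⟨s, hs, hw, ?_⟩
    have h1 : x s * (x0 t)⁻¹ ∈ M := by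
      have h2 := M.mul_mem (hWM hw) hh
      have h3 : x s * (h * x0 t)⁻¹ * h = x s * (x0 t)⁻¹ := by group
      rwa [h3] at h2
    have h4 := (hlab s hs t ht h1).2 rfl
    set w : G := x s * (h * x0 t)⁻¹ with hwdef
    have h5 : x s = w * h * x0 t := by rw [hwdef]; group
    have h6 : x (s + 1) = x s * ((x0 t)⁻¹ * x0 (t + 1)) := by rw [← h4]; group
    have h7 := hWc _ hhW _ hw
    have h8 : (x s)⁻¹ * (h * u * h⁻¹ * x (s + 1)) =
        ((x0 t)⁻¹ * m * x0 t)⁻¹ * ((x0 t)⁻¹ * x0 (t + 1)) * ((x0 t)⁻¹ * m * x0 t) := by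
      calc (x s)⁻¹ * (h * u * h⁻¹ * x (s + 1)) =
          (x0 t)⁻¹ * h⁻¹ * w⁻¹ * ((h * u * h⁻¹ * w) * (h * x0 (t + 1))) := by
            rw [h6, h5]; group
        _ = (x0 t)⁻¹ * h⁻¹ * w⁻¹ * ((w * (h * u * h⁻¹)) * (h * x0 (t + 1))) := by rw [h7]
        _ = (x0 t)⁻¹ * u * x0 (t + 1) := by group
        _ = _ := by rw [hu]; group
    rw [h8]
    refine hAM _ (h0.step t ht) _ ?_
    have := hMn.conj_mem m hm (x0 t)⁻¹
    rwa [inv_inv] at this
  have hsurj := hM.surj hc huM huc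
  have hzu : Subgroup.zpowers u ≤ W := le_sup_right
  obtain ⟨L1, x1, hx1, hav1⟩ := inv_of hNW
    (fun V h1 h2 => sup_le h1 (by rwa [Subgroup.zpowers_le])) hWc hsurj hbase
    (Subgroup.zpowers u) (Subgroup.mem_zpowers u) hzu
  obtain ⟨s, hs, -, hsA⟩ := hav1 1 M.one_mem (by simpa using Subgroup.mem_zpowers u)
  have hsA' : (x1 s)⁻¹ * (u * x1 (s + 1)) ∈ A := by simpa using hsA
  obtain ⟨p, hp, hpu⟩ := hM.prime hc hnab
  obtain ⟨k, hk⟩ := hpu u huM
  have hpow : ∀ g ∈ Subgroup.zpowers u, ∃ j : ℕ, g = u ^ j := by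
    intro g hg
    rw [← mem_powers_iff_mem_zpowers] at hg
    obtain ⟨j, hj⟩ := hg
    exact ⟨j, hj.symm⟩
  have hfin : ∀ y : ℕ → G, HW A (Subgroup.zpowers u) L1 y →
      (∃ j : ℕ, y L1 = u ^ j ∧ j.Coprime (orderOf u)) → ∃ (L : ℕ) (x : ℕ → G), HW A ⊥ L x := by
    rintro y hy ⟨j, hj, hcop⟩
    obtain ⟨i, hi⟩ := exists_pow_eq_self_of_coprime hcop
    obtain ⟨q, -, hq⟩ := hy.rept (U := ⊥) bot_le (by
      intro w hw
      obtain ⟨r, rfl⟩ := hpow w hw
      refine ⟨i * r, ?_⟩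
      rw [hj, pow_mul, hi, mul_inv_cancel]
      exact Subgroup.one_mem _)
    exact ⟨_, _, hq⟩
  obtain ⟨j, hj⟩ := hpow _ hx1.last
  by_cases hcop : j.Coprime (orderOf u)
  · exact hfin x1 hx1 ⟨j, hj, hcop⟩
  · refine hfin (shift x1 s u) (hx1.shift hs (Subgroup.mem_zpowers u) hsA')
      ⟨j + 1, ?_, ?_⟩
    · rw [shift_gt hs, hj, pow_succ']
    · rw [hk] at hcop ⊢
      have hpj : p ∣ j := by
        by_contra hpj
        exact hcop (Nat.Coprime.pow_right k ((Nat.Prime.coprime_iff_not_dvd hp).2 hpj).symm)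
      refine Nat.Coprime.pow_right k (((Nat.Prime.coprime_iff_not_dvd hp).2 ?_).symm)
      intro h
      have := (Nat.dvd_add_right hpj).1 h
      exact hp.one_lt.ne' (Nat.dvd_one.1 this)

end Pool.Agent.H207.NL
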