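import Pool.Agent.H207.NL.Lifting
import Pool.Agent.H65T.NC.Path

/-!
# Closed listing sequences
-/

set_option autoImplicit false

namespace Pool.Agent.H207.NL

universe u

section

variable {G : Type u} [Group G]

/-- `A` has a closed listing sequence -/
def Closed (A : Set G) : Prop :=
  ∃ a : Fin (Nat.card G) → G, (∀ i, a i ∈ A) ∧
    Function.Injective (fun k : Fin (Nat.card G) => Fin.partialProd a k.succ) ∧
    Fin.partialProd a (Fin.last (Nat.card G)) = 1

lemma HW.card_eq {A : Set G} {L : ℕ} {x : ℕ → G} (h : HW A ⊥ L x) : L = Nat.card G := by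
  have hb : Function.Bijective (fun n : Fin L => x n) := by
    constructor
    · intro i j hij
      apply Fin.ext
      refine h.inj i i.2 j j.2 ?_
      have hij' : x i = x j := hij
      rw [hij', mul_inv_cancel]
      exact Subgroup.one_mem _
    · intro g
      obtain ⟨n, hn, hg⟩ := h.cover g
      rw [Subgroup.mem_bot, mul_inv_eq_one] at hg
      exact ⟨⟨n, hn⟩, hg.symm⟩
  rw [← Nat.card_congr (Equiv.ofBijective _ hb), Nat.card_fin]

lemma HW.closed {A : Set G} {L : ℕ} {x : ℕ → G} (h : HW A ⊥ L x) : Closed A := by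
  have hL := h.card_eq
  subst hL
  have hp : ∀ (m : ℕ) (hm : m < Nat.card G + 1),
      Fin.partialProd (fun i : Fin (Nat.card G) => (x i)⁻¹ * x (i + 1)) ⟨m, hm⟩ = x m := by
    intro m
    induction m with
    | zero =>
      intro hm
      have : (⟨0, hm⟩ : Fin (Nat.card G + 1)) = 0 := rfl
      rw [this, Fin.partialProd_zero, h.zero]
    | succ m ih =>
      intro hm
      have h1 : (⟨m + 1, hm⟩ : Fin (Nat.card G + 1)) = Fin.succ ⟨m, by omega⟩ := rfl
      rw [h1, Fin.partialProd_succ]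
      have h2 : Fin.castSucc (⟨m, by omega⟩ : Fin (Nat.card G)) = ⟨m, by omega⟩ := rfl
      rw [h2, ih]
      simp
  have hlast : x (Nat.card G) = 1 := by
    have := h.last
    rwa [Subgroup.mem_bot] at this
  have hinj : ∀ i < Nat.card G, ∀ j < Nat.card G, x i = x j → i = j := by
    intro i hi j hj hij
    refine h.inj i hi j hj ?_
    rw [hij, mul_inv_cancel]
    exact Subgroup.one_mem _
  refine ⟨fun i => (x i)⁻¹ * x (i + 1), fun i => h.step i i.2, ?_, ?_⟩
  · intro i j hij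
    have h1 : Fin.partialProd (fun i : Fin (Nat.card G) => (x i)⁻¹ * x (i + 1)) i.succ =
      Fin.partialProd (fun i : Fin (Nat.card G) => (x i)⁻¹ * x (i + 1)) j.succ := hij
    have hi : i.succ = ⟨i + 1, by omega⟩ := rfl
    have hj : j.succ = ⟨j + 1, by omega⟩ := rfl
    rw [hi, hj, hp, hp] at h1
    have hi2 := i.2
    have hj2 := j.2
    apply Fin.ext
    rcases Nat.lt_or_ge (i + 1) (Nat.card G) with h2 | h2
    · rcases Nat.lt_or_ge (j + 1) (Nat.card G) with h3 | h3
      · have := hinj _ h2 _ h3 h1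
        omega
      · have h4 : (j : ℕ) + 1 = Nat.card G := by omega
        rw [h4, hlast, ← h.zero] at h1
        have := hinj _ h2 0 (by omega) h1
        omega
    · have h4 : (i : ℕ) + 1 = Nat.card G := by omega
      rcases Nat.lt_or_ge (j + 1) (Nat.card G) with h3 | h3
      · rw [h4, hlast, ← h.zero] at h1
        have := hinj 0 (by omega) _ h3 h1
        omega
      · omega
  · have : Fin.last (Nat.card G) = ⟨Nat.card G, by omega⟩ := rfl
    rw [this, hp, hlast]

lemma HW.of_closed [Finite G] {A : Set G} (h : Closed A) : ∃ x : ℕ → G, HW A ⊥ (Nat.card G) x := by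
  obtain ⟨a, ha, hinj, hlast⟩ := h
  have hpos : 0 < Nat.card G := Nat.card_pos
  let x : ℕ → G := fun m => Fin.partialProd a ⟨min m (Nat.card G), by omega⟩
  have hx0 : x 0 = 1 := by
    have : (⟨min 0 (Nat.card G), by omega⟩ : Fin (Nat.card G + 1)) = 0 := by
      apply Fin.ext
      simp
    show Fin.partialProd a ⟨min 0 (Nat.card G), _⟩ = 1
    rw [this, Fin.partialProd_zero]
  have hxs : ∀ k : Fin (Nat.card G), x (k + 1) = Fin.partialProd a k.succ := by
    intro k
    have : (⟨min (k + 1) (Nat.card G), by omega⟩ : Fin (Nat.card G + 1)) = k.succ := by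
      apply Fin.ext
      simp only [Fin.val_succ]
      omega
    show Fin.partialProd a ⟨min (k + 1) (Nat.card G), _⟩ = _
    rw [this]
  have hxc : ∀ k : Fin (Nat.card G), x k = Fin.partialProd a k.castSucc := by
    intro k
    have : (⟨min (k : ℕ) (Nat.card G), by omega⟩ : Fin (Nat.card G + 1)) = k.castSucc := by
      apply Fin.ext
      simp only [Fin.val_castSucc]
      omega
    show Fin.partialProd a ⟨min (k : ℕ) (Nat.card G), _⟩ = _
    rw [this]
  have hxl : x (Nat.card G) = 1 := by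
    have : (⟨min (Nat.card G) (Nat.card G), by omega⟩ : Fin (Nat.card G + 1)) =
        Fin.last (Nat.card G) := by
      apply Fin.ext
      simp
    show Fin.partialProd a ⟨min (Nat.card G) (Nat.card G), _⟩ = 1
    rw [this, hlast]
  have hinj' : ∀ i < Nat.card G, ∀ j < Nat.card G, x (i + 1) = x (j + 1) → i = j := by
    intro i hi j hj hij
    have h1 := hxs ⟨i, hi⟩
    have h2 := hxs ⟨j, hj⟩
    simp only at h1 h2
    rw [h1, h2] at hij
    have := hinj hij
    exact congrArg Fin.val this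
  refine ⟨x, hx0, ?_, ?_, ?_, ?_⟩
  · intro n hn
    have h1 := hxs ⟨n, hn⟩
    have h2 := hxc ⟨n, hn⟩
    simp only at h1 h2
    rw [h1, h2, Fin.partialProd_succ]
    simpa using ha ⟨n, hn⟩
  · rw [Subgroup.mem_bot, hxl]
  · intro g
    have hsurj : Function.Surjective (fun k : Fin (Nat.card G) => Fin.partialProd a k.succ) := by
      have := Fintype.ofFinite G
      have hc : Fintype.card (Fin (Nat.card G)) = Fintype.card G := by
        rw [Fintype.card_fin, Nat.card_eq_fintype_card]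
      exact ((Fintype.bijective_iff_injective_and_card _).2 ⟨hinj, hc⟩).2
    obtain ⟨k, hk⟩ := hsurj g
    simp only at hk
    rw [← hxs] at hk
    have hk2 := k.2
    rcases Nat.lt_or_ge (k + 1) (Nat.card G) with h2 | h2
    · refine ⟨k + 1, h2, ?_⟩
      rw [hk, mul_inv_cancel]
      exact Subgroup.one_mem _
    · have h4 : (k : ℕ) + 1 = Nat.card G := by omega
      rw [h4, hxl] at hk
      refine ⟨0, hpos, ?_⟩
      rw [hx0, ← hk]
      simp
  · intro i hi j hj hij
    rw [Subgroup.mem_bot, mul_inv_eq_one] at hij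
    rcases Nat.eq_zero_or_pos i with hi0 | hi0
    · rcases Nat.eq_zero_or_pos j with hj0 | hj0
      · omega
      · subst hi0
        rw [hx0, ← hxl] at hij
        have e1 : Nat.card G = (Nat.card G - 1) + 1 := by omega
        have e2 : j = (j - 1) + 1 := by omega
        rw [e1, e2] at hij
        have := hinj' _ (by omega) _ (by omega) hij
        omega
    · rcases Nat.eq_zero_or_pos j with hj0 | hj0
      · subst hj0
        rw [hx0, ← hxl] at hij
        have e1 : Nat.card G = (Nat.card G - 1) + 1 := by omega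
        have e2 : i = (i - 1) + 1 := by omega
        rw [e1, e2] at hij
        have := hinj' _ (by omega) _ (by omega) hij
        omega
      · have e1 : i = (i - 1) + 1 := by omega
        have e2 : j = (j - 1) + 1 := by omega
        rw [e1, e2] at hij
        have := hinj' _ (by omega) _ (by omega) hij
        omega

lemma HW.of_hc [Finite G] {A : Set G} (h : Pool.Agent.H65T.NC.HC G A) :
    ∃ (L : ℕ) (x : ℕ → G), HW A ⊥ L x := by
  haveI := Fintype.ofFinite G
  obtain ⟨σ, h1, h2⟩ := h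
  obtain ⟨h3, h4⟩ := Pool.Agent.H65T.NC.orbit_all (σ : G → G) σ.injective h2 (1 : G)
  have hpos : 0 < Fintype.card G := Fintype.card_pos
  have hinj : ∀ i < Fintype.card G, ∀ j < Fintype.card G, (σ : G → G)^[i] 1 = (σ : G → G)^[j] 1 →
      i = j := fun i hi j hj hij => h3 (Set.mem_Iio.2 hi) (Set.mem_Iio.2 hj) hij
  refine ⟨Fintype.card G, fun n => (σ : G → G)^[n] 1, rfl, ?_, ?_, ?_, ?_⟩
  · intro n _
    show ((σ : G → G)^[n] 1)⁻¹ * (σ : G → G)^[n + 1] 1 ∈ A
    rw [Function.iterate_succ_apply']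
    exact h1 _
  · rw [Subgroup.mem_bot]
    obtain ⟨j, hj, e⟩ := h4 ((σ : G → G)^[Fintype.card G] 1)
    rcases Nat.eq_zero_or_pos j with hj0 | hj0
    · subst hj0
      exact e.symm
    · exfalso
      have e2 : Fintype.card G = j + (Fintype.card G - j) := by omega
      rw [e2, Function.iterate_add_apply] at e
      have e3 := (σ.injective.iterate j) e
      have := hinj 0 hpos (Fintype.card G - j) (by omega) e3
      omega
  · intro g
    obtain ⟨j, hj, e⟩ := h4 g
    exact ⟨j, hj, by rw [e, mul_inv_cancel]; exact Subgroup.one_mem _⟩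
  · intro i hi j hj hij
    rw [Subgroup.mem_bot, mul_inv_eq_one] at hij
    exact hinj i hi j hj hij

lemma base [Finite G] {A : Set G} (hne : A.Nonempty) (hA : ∀ a ∈ A, ∀ g, g * a * g⁻¹ ∈ A)
    (hinv : ∀ a ∈ A, a⁻¹ ∈ A) (hgen : Subgroup.closure A = ⊤) :
    ∃ (L : ℕ) (x : ℕ → G), HW A ⊥ L x := by
  haveI := Fintype.ofFinite G
  by_cases h : Nat.card G ≤ 1
  · have hs : Subsingleton G := (Finite.card_le_one_iff_subsingleton).1 h
    obtain ⟨a, ha⟩ := hne
    refine ⟨1, fun _ => 1, rfl, ?_, Subgroup.one_mem _, ?_, ?_⟩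
    · intro n _
      have : (1 : G)⁻¹ * 1 = a := Subsingleton.elim _ _
      rw [this]
      exact ha
    · intro g
      refine ⟨0, by omega, ?_⟩
      rw [Subsingleton.elim (g * 1⁻¹) 1]
      exact Subgroup.one_mem _
    · intro i hi j hj _
      omega
  · refine HW.of_hc (Pool.Agent.H65T.NC.hc_main _ G A rfl ?_ hA hinv hgen)
    rw [← Nat.card_eq_fintype_card]
    omega

/-- lifting of closed listing sequences -/
theorem lift_closed [Finite G] (N : Subgroup G) [N.Normal] (hsol : Group.IsSolvable N)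
    (A : Set G) (hconj : ∀ n ∈ N, ∀ a ∈ A, n * a * n⁻¹ ∈ A)
    (h : ∃ (L : ℕ) (y : ℕ → G ⧸ ⁅N, (⊤ : Subgroup G)⁆),
      HW (QuotientGroup.mk' ⁅N, (⊤ : Subgroup G)⁆ '' A) ⊥ L y) :
    ∃ (L : ℕ) (x : ℕ → G), HW A ⊥ L x := by
  obtain ⟨L, y, hy⟩ := h
  obtain ⟨x, hx⟩ := hy.pull
  refine lift_main _ G rfl A N inferInstance hsol ?_ L x hx
  intro a ha s hs
  have := hconj s⁻¹ (N.inv_mem hs) a ha
  rwa [inv_inv] at this

theorem closed_main [Finite G] (N : Subgroup G) [N.Normal] (hsol : Group.IsSolvable N)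
    (A : Set G) (hne : A.Nonempty) (hinv : ∀ a ∈ A, a⁻¹ ∈ A) (hgen : Subgroup.closure A = ⊤)
    (hconj : ∀ n ∈ N, ∀ a ∈ A, n * a * n⁻¹ ∈ A)
    (hquot : ∀ g : G, ∀ a ∈ A, ∃ b ∈ A, (g * a * g⁻¹)⁻¹ * b ∈ ⁅N, (⊤ : Subgroup G)⁆) :
    ∃ (L : ℕ) (x : ℕ → G), HW A ⊥ L x := by
  apply lift_closed N hsol A hconj
  apply base
  · obtain ⟨a, ha⟩ := hne
    exact ⟨_, a, ha, rfl⟩
  · rintro _ ⟨a, ha, rfl⟩ g
    obtain ⟨g, rfl⟩ := QuotientGroup.mk'_surjective _ g
    obtain ⟨b, hb, hab⟩ := hquot g a ha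
    refine ⟨b, hb, ?_⟩
    rw [← QuotientGroup.ker_mk' ⁅N, (⊤ : Subgroup G)⁆, MonoidHom.mem_ker, map_mul, map_inv] at hab
    rw [← map_inv, ← map_mul, ← map_mul]
    exact (inv_mul_eq_one.1 hab).symm
  · rintro _ ⟨a, ha, rfl⟩
    exact ⟨a⁻¹, hinv a ha, by rw [map_inv]⟩
  · rw [← MonoidHom.map_closure, hgen]
    exact Subgroup.map_top_of_surjective _ (QuotientGroup.mk'_surjective _)

lemma HW.hp {A : Set G} {L : ℕ} {x : ℕ → G} (h : HW A ⊥ L x) : Pool.Agent.H65T.NC.HP G A := by
  have hL := h.card_eq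
  subst hL
  refine ⟨x, ?_, fun i hi => h.step i (by omega)⟩
  intro i hi j hj hij
  refine h.inj i (Set.mem_Iio.1 hi) j (Set.mem_Iio.1 hj) ?_
  rw [hij, mul_inv_cancel]
  exact Subgroup.one_mem _

theorem listing_main [Finite G] (N : Subgroup G) [N.Normal] (hsol : Group.IsSolvable N)
    (A : Set G) (hne : A.Nonempty) (hinv : ∀ a ∈ A, a⁻¹ ∈ A) (hgen : Subgroup.closure A = ⊤)
    (hconj : ∀ n ∈ N, ∀ a ∈ A, n * a * n⁻¹ ∈ A)
    (hquot : ∀ g : G, ∀ a ∈ A, ∃ b ∈ A, (g * a * g⁻¹)⁻¹ * b ∈ ⁅N, (⊤ : Subgroup G)⁆ ⊔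
      Subgroup.closure {a ∈ A | ∀ g : G, g * a * g⁻¹ ∈ A}) :
    ∃ a : Fin (Nat.card G) → G, (∀ i, a i ∈ A) ∧
      Function.Injective (fun k : Fin (Nat.card G) => Fin.partialProd a k.succ) := by
  apply Pool.Agent.H65T.NC.listing hne
  obtain ⟨A0, hA0⟩ : ∃ A0, A0 = {a ∈ A | ∀ g, g * a * g⁻¹ ∈ A} := ⟨_, rfl⟩
  obtain ⟨H, hH⟩ : ∃ H, H = Subgroup.closure A0 := ⟨_, rfl⟩
  rw [← hA0, ← hH] at hquot
  have c1 : ∀ a ∈ A0, ∀ g, g * a * g⁻¹ ∈ A0 := by
    intro a ha g
    rw [hA0] at ha ⊢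
    refine ⟨ha.2 g, fun g' => ?_⟩
    have e : g' * (g * a * g⁻¹) * g'⁻¹ = (g' * g) * a * (g' * g)⁻¹ := by group
    rw [e]
    exact ha.2 _
  have c2 : ∀ a ∈ A0, a⁻¹ ∈ A0 := by
    intro a ha
    rw [hA0] at ha ⊢
    refine ⟨hinv a ha.1, fun g => ?_⟩
    have e : g * a⁻¹ * g⁻¹ = (g * a * g⁻¹)⁻¹ := by group
    rw [e]
    exact hinv _ (ha.2 g)
  haveI hHn : H.Normal := by
    constructor
    intro n hn g
    rw [hH] at hn ⊢
    induction hn using Subgroup.closure_induction with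
    | mem x hx => exact Subgroup.subset_closure (c1 x hx g)
    | one => simp
    | mul x y _ _ hx hy =>
      have : g * (x * y) * g⁻¹ = (g * x * g⁻¹) * (g * y * g⁻¹) := by group
      rw [this]
      exact Subgroup.mul_mem _ hx hy
    | inv x _ hx =>
      have : g * x⁻¹ * g⁻¹ = (g * x * g⁻¹)⁻¹ := by group
      rw [this]
      exact Subgroup.inv_mem _ hx
  have hA0H : A0 ∩ H = A0 := by
    apply Set.inter_eq_left.2
    rw [hH]
    exact Subgroup.subset_closure
  have h1 : Pool.Agent.H65T.NC.HP H {h : H | (h : G) ∈ A0} := by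
    refine Pool.Agent.H65T.NC.hp_all ?_ ?_ ?_
    · intro a ha g
      exact c1 _ ha _
    · intro a ha
      exact c2 _ ha
    · apply Pool.Agent.H65T.NC.closure_sub
      rw [hA0H, hH]
  have h1' : Pool.Agent.H65T.NC.HP H {h : H | (h : G) ∈ A} := by
    obtain ⟨p, hp1, hp2⟩ := h1
    refine ⟨p, hp1, fun i hi => ?_⟩
    have := hp2 i hi
    have hs : A0 ⊆ A := by
      rw [hA0]
      exact fun x hx => hx.1
    exact hs this
  refine Pool.Agent.H65T.NC.hp_extend H h1' ?_
  have hNn : (N.map (QuotientGroup.mk' H)).Normal :=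
    Subgroup.Normal.map inferInstance _ (QuotientGroup.mk'_surjective H)
  have hNs : Group.IsSolvable (N.map (QuotientGroup.mk' H)) := by
    haveI := hsol
    exact Group.isSolvable_of_surjective (f := (QuotientGroup.mk' H).subgroupMap N)
      ((QuotientGroup.mk' H).subgroupMap_surjective N)
  have hmap : ⁅N.map (QuotientGroup.mk' H), (⊤ : Subgroup (G ⧸ H))⁆ =
      (⁅N, (⊤ : Subgroup G)⁆ ⊔ H).map (QuotientGroup.mk' H) := by
    rw [Subgroup.map_sup, Subgroup.map_commutator,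
      Subgroup.map_top_of_surjective _ (QuotientGroup.mk'_surjective H)]
    have : H.map (QuotientGroup.mk' H) = ⊥ := by
      rw [eq_bot_iff]
      rintro _ ⟨h, hh, rfl⟩
      rw [Subgroup.mem_bot, ← MonoidHom.mem_ker, QuotientGroup.ker_mk']
      exact hh
    rw [this, sup_bot_eq]
  obtain ⟨L, x, hx⟩ := closed_main (N.map (QuotientGroup.mk' H)) hNs (QuotientGroup.mk' H '' A)
    (hne.image _)
    (by
      rintro _ ⟨a, ha, rfl⟩
      exact ⟨a⁻¹, hinv a ha, by rw [map_inv]⟩)
    (by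
      rw [← MonoidHom.map_closure, hgen]
      exact Subgroup.map_top_of_surjective _ (QuotientGroup.mk'_surjective _))
    (by
      rintro _ ⟨n, hn, rfl⟩ _ ⟨a, ha, rfl⟩
      exact ⟨_, hconj n hn a ha, by rw [map_mul, map_mul, map_inv]⟩)
    (by
      rintro g _ ⟨a, ha, rfl⟩
      obtain ⟨g, rfl⟩ := QuotientGroup.mk'_surjective _ g
      obtain ⟨b, hb, hab⟩ := hquot g a ha
      refine ⟨_, ⟨b, hb, rfl⟩, ?_⟩
      rw [hmap]
      exact ⟨_, hab, by simp only [map_mul, map_inv]⟩)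
  exact hx.hp

end

end Pool.Agent.H207.NL
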