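import Pool.Agent.H207.NL.Bottom

/-!
# Lifting closed walks along `[S, G]` for a solvable normal subgroup `S`
-/

set_option autoImplicit false

namespace Pool.Agent.H207.NL

universe u

section

variable {G : Type u} [Group G]

lemma comm_le_of {M U : Subgroup G} (hU : ∀ m ∈ M, ∀ g : G, m⁻¹ * g * m * g⁻¹ ∈ U) :
    ⁅M, (⊤ : Subgroup G)⁆ ≤ U := by
  rw [Subgroup.commutator_le]
  intro a ha g _
  have := hU a⁻¹ (M.inv_mem ha) g
  rw [inv_inv] at this
  rw [commutatorElement_def]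
  exact this

theorem abel [Finite G] {A : Set G} {M : Subgroup G} (hMn : M.Normal)
    (hab : ∀ a ∈ M, ∀ b ∈ M, a * b = b * a)
    (hAM : ∀ a ∈ A, ∀ m ∈ M, m⁻¹ * a * m ∈ A)
    {l : ℕ} {x0 : ℕ → G} (h0 : HW A ⁅M, (⊤ : Subgroup G)⁆ l x0) :
    ∃ (L : ℕ) (x : ℕ → G), HW A ⊥ L x := by
  have hMK : ∀ m ∈ M, ∀ g, m⁻¹ * g * m * g⁻¹ ∈ ⁅M, (⊤ : Subgroup G)⁆ := by
    intro m hm g
    have := Subgroup.commutator_mem_commutator (M.inv_mem hm) (Subgroup.mem_top g)
    rw [commutatorElement_def, inv_inv] at this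
    exact this
  obtain ⟨L, x, hx, -⟩ := good_of (A := A) (M := M) (K := ⁅M, (⊤ : Subgroup G)⁆) (N := ⊥)
    (Subgroup.commutator_le_left M ⊤) bot_le
    (fun a ha b hb => by
      rw [Subgroup.mem_bot, hab a ha b hb]
      group)
    hMK hAM l h0 (fun U _ hU => comm_le_of hU) ⊥ le_rfl bot_le
  exact ⟨L, x, hx⟩

lemma HW.push {A : Set G} {K V : Subgroup G} [K.Normal] (hKV : K ≤ V) {l : ℕ} {x : ℕ → G}
    (h : HW A V l x) :
    HW (QuotientGroup.mk' K '' A) (V.map (QuotientGroup.mk' K)) l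
      (fun n => QuotientGroup.mk' K (x n)) := by
  refine ⟨?_, ?_, ?_, ?_, ?_⟩
  · rw [h.zero, map_one]
  · intro n hn
    exact ⟨_, h.step n hn, by rw [map_mul, map_inv]⟩
  · exact ⟨_, h.last, rfl⟩
  · intro g
    obtain ⟨g, rfl⟩ := QuotientGroup.mk'_surjective K g
    obtain ⟨n, hn, hg⟩ := h.cover g
    exact ⟨n, hn, _, hg, by rw [map_mul, map_inv]⟩
  · intro i hi j hj hij
    refine h.inj i hi j hj ?_
    obtain ⟨v, hv, e⟩ := hij
    have h1 : v⁻¹ * (x i * (x j)⁻¹) ∈ K := by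
      rw [← QuotientGroup.ker_mk' K, MonoidHom.mem_ker, map_mul, map_inv, e, map_mul, map_inv]
      group
    have h2 := V.mul_mem hv (hKV h1)
    simpa using h2

lemma HW.pull {A : Set G} {K : Subgroup G} [K.Normal] {L : ℕ} {y : ℕ → G ⧸ K}
    (h : HW (QuotientGroup.mk' K '' A) ⊥ L y) : ∃ x : ℕ → G, HW A K L x := by
  classical
  have hch : ∀ n, ∃ a : G, n < L → a ∈ A ∧ QuotientGroup.mk' K a = (y n)⁻¹ * y (n + 1) := by
    intro n
    by_cases hn : n < L
    · obtain ⟨a, ha, e⟩ := h.step n hn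
      exact ⟨a, fun _ => ⟨ha, e⟩⟩
    · exact ⟨1, fun h => absurd h hn⟩
  choose a ha using hch
  let x : ℕ → G := fun n => Nat.rec 1 (fun k w => w * a k) n
  have hx0 : x 0 = 1 := rfl
  have hxs : ∀ n, x (n + 1) = x n * a n := fun n => rfl
  have hmk : ∀ n, n ≤ L → QuotientGroup.mk' K (x n) = y n := by
    intro n
    induction n with
    | zero => intro _; rw [hx0, map_one, h.zero]
    | succ n ih =>
      intro hn
      rw [hxs, map_mul, ih (by omega), (ha n (by omega)).2]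
      group
  have hmem : ∀ g : G, QuotientGroup.mk' K g = 1 ↔ g ∈ K := by
    intro g
    rw [← MonoidHom.mem_ker, QuotientGroup.ker_mk']
  refine ⟨x, hx0, ?_, ?_, ?_, ?_⟩
  · intro n hn
    rw [hxs]
    have : (x n)⁻¹ * (x n * a n) = a n := by group
    rw [this]
    exact (ha n hn).1
  · rw [← hmem, hmk L le_rfl]
    exact h.last
  · intro g
    obtain ⟨n, hn, hg⟩ := h.cover (QuotientGroup.mk' K g)
    refine ⟨n, hn, ?_⟩
    rw [← hmem, map_mul, map_inv, hmk n hn.le]
    exact hg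
  · intro i hi j hj hij
    refine h.inj i hi j hj ?_
    rw [← hmem, map_mul, map_inv, hmk i hi.le, hmk j hj.le] at hij
    exact hij

end

/-- **Lifting theorem** -/
theorem lift_main : ∀ n : ℕ, ∀ (G : Type u) [Group G] [Finite G], Nat.card G = n →
    ∀ (A : Set G) (S : Subgroup G), S.Normal → Group.IsSolvable S →
    (∀ a ∈ A, ∀ s ∈ S, s⁻¹ * a * s ∈ A) →
    ∀ (l : ℕ) (x0 : ℕ → G), HW A ⁅S, (⊤ : Subgroup G)⁆ l x0 →
    ∃ (L : ℕ) (x : ℕ → G), HW A ⊥ L x := by
  intro n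
  induction n using Nat.strong_induction_on with
  | _ n ih =>
  intro G _ _ hn A S hSn hSs hconj l x0 h0
  by_cases hcen : S ≤ Subgroup.center G
  · have h1 : ⁅S, (⊤ : Subgroup G)⁆ = ⊥ := by
      rw [eq_bot_iff, Subgroup.commutator_le]
      intro a ha g _
      rw [commutatorElement_def, Subgroup.mem_bot]
      have := central_comm (hcen ha) g
      rw [← this]
      group
    rw [h1] at h0
    exact ⟨l, x0, h0⟩
  obtain ⟨M, hMS, hM⟩ := exists_minNC hSn hcen
  have hMn := hM.normal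
  have hMsol : Group.IsSolvable M := by
    haveI := hSs
    exact solvable_of_solvable_injective (f := Subgroup.inclusion hMS)
      (Subgroup.inclusion_injective hMS)
  have hAM : ∀ a ∈ A, ∀ m ∈ M, m⁻¹ * a * m ∈ A := fun a ha m hm => hconj a ha m (hMS hm)
  -- the subgroup to be divided out
  have hKex : ∃ K : Subgroup G, K.Normal ∧ K ≤ ⁅S, (⊤ : Subgroup G)⁆ ∧ K ≠ ⊥ ∧
      ∀ (l : ℕ) (x : ℕ → G), HW A K l x → ∃ (L : ℕ) (x : ℕ → G), HW A ⊥ L x := by
    by_cases hab : ∀ a ∈ M, ∀ b ∈ M, a * b = b * a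
    · refine ⟨⁅M, (⊤ : Subgroup G)⁆, inferInstance, Subgroup.commutator_mono hMS le_rfl, ?_,
        fun l x hx => abel hMn hab hAM hx⟩
      intro h
      apply hM.nc
      intro m hm
      rw [Subgroup.mem_center_iff]
      intro g
      have h1 := Subgroup.commutator_mem_commutator hm (Subgroup.mem_top g)
      rw [h, Subgroup.mem_bot, commutatorElement_def] at h1
      have h2 := mul_inv_eq_one.1 h1
      exact (mul_inv_eq_iff_eq_mul.1 h2).symm
    · have h1 : ⁅M, (⊤ : Subgroup G)⁆ = M :=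
        hM.min _ inferInstance (Subgroup.commutator_le_left M ⊤) (hM.comm_top_nc hab)
      refine ⟨M, hMn, ?_, ?_, fun l x hx => nonab hM hMsol hab hAM hx⟩
      · rw [← h1]
        exact Subgroup.commutator_mono hMS le_rfl
      · intro h
        apply hM.nc
        rw [h]
        exact bot_le
  obtain ⟨K, hKn, hKle, hKne, hKlift⟩ := hKex
  have hcard : Nat.card (G ⧸ K) < n := by
    rw [← hn, Subgroup.card_eq_card_quotient_mul_card_subgroup K]
    have h1 : 1 < Nat.card K := by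
      rw [Finite.one_lt_card_iff_nontrivial]
      exact (Subgroup.nontrivial_iff_ne_bot K).2 hKne
    have h2 : 0 < Nat.card (G ⧸ K) := Nat.card_pos
    nlinarith
  have hmap : (⁅S, (⊤ : Subgroup G)⁆).map (QuotientGroup.mk' K) =
      ⁅S.map (QuotientGroup.mk' K), (⊤ : Subgroup (G ⧸ K))⁆ := by
    rw [Subgroup.map_commutator, Subgroup.map_top_of_surjective _ (QuotientGroup.mk'_surjective K)]
  have hSsol : Group.IsSolvable (S.map (QuotientGroup.mk' K)) := by
    haveI := hSs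
    exact solvable_of_surjective (f := (QuotientGroup.mk' K).subgroupMap S)
      ((QuotientGroup.mk' K).subgroupMap_surjective S)
  have hpush := h0.push hKle
  rw [hmap] at hpush
  obtain ⟨L, y, hy⟩ := ih _ hcard (G ⧸ K) rfl (QuotientGroup.mk' K '' A)
    (S.map (QuotientGroup.mk' K)) (hSn.map _ (QuotientGroup.mk'_surjective K)) hSsol
    (by
      rintro _ ⟨a, ha, rfl⟩ _ ⟨s, hs, rfl⟩
      exact ⟨_, hconj a ha s hs, by rw [map_mul, map_mul, map_inv]⟩) l _ hpush
  obtain ⟨x, hx⟩ := hy.pull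
  exact hKlift _ _ hx

end Pool.Agent.H207.NL
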