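import Pool.Agent.H207.NL.Top

/-!
# Minimal noncentral normal subgroups of a solvable normal subgroup
-/

set_option autoImplicit false

namespace Pool.Agent.H207.NL

universe u

variable {G : Type u} [Group G]

/-- `M` is minimal among the normal subgroups of `G` that are not central -/
structure MinNC (M : Subgroup G) : Prop where
  normal : M.Normal
  nc : ¬ M ≤ Subgroup.center G
  min : ∀ M1 : Subgroup G, M1.Normal → M1 ≤ M → ¬ M1 ≤ Subgroup.center G → M1 = M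

lemma exists_minNC [Finite G] {S : Subgroup G} (hS : S.Normal) (hnc : ¬ S ≤ Subgroup.center G) :
    ∃ M : Subgroup G, M ≤ S ∧ MinNC M := by
  obtain ⟨M, ⟨h1, h2, h3⟩, hmin⟩ := Set.exists_min_image
    {M : Subgroup G | M.Normal ∧ M ≤ S ∧ ¬ M ≤ Subgroup.center G}
    (fun M => Nat.card M) (Set.toFinite _) ⟨S, hS, le_rfl, hnc⟩
  refine ⟨M, h2, h1, h3, ?_⟩
  intro M1 h4 h5 h6
  exact Subgroup.eq_of_le_of_card_ge h5 (hmin M1 ⟨h4, h5.trans h2, h6⟩)

lemma central_conj {z : G} (hz : z ∈ Subgroup.center G) (g : G) : g * z * g⁻¹ = z := by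
  rw [Subgroup.mem_center_iff] at hz
  rw [hz g]; group

lemma central_comm {z : G} (hz : z ∈ Subgroup.center G) (g : G) : g * z = z * g := by
  rw [Subgroup.mem_center_iff] at hz
  exact hz g

section

variable [Finite G] {M : Subgroup G} (hM : MinNC M)

include hM

lemma MinNC.comm_central (hsol : Group.IsSolvable M) : ⁅M, M⁆ ≤ Subgroup.center G := by
  have hMn := hM.normal
  haveI := hsol
  by_contra hcon
  have h1 : ⁅M, M⁆ = M := hM.min _ inferInstance (Subgroup.commutator_le_left M M) hcon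
  have hne : Nontrivial M := by
    rw [← not_subsingleton_iff_nontrivial]
    intro hs
    apply hM.nc
    intro x hx
    have : (⟨x, hx⟩ : M) = 1 := Subsingleton.elim _ _
    have h2 : x = 1 := congrArg Subtype.val this
    rw [h2]
    exact Subgroup.one_mem _
  have h3 : commutator M < ⊤ := Group.IsSolvable.commutator_lt_top_of_nontrivial M
  apply h3.ne
  apply Subgroup.map_injective M.subtype_injective
  rw [Subgroup.map_subtype_commutator, h1, ← MonoidHom.range_eq_map, Subgroup.range_subtype]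

lemma MinNC.comm_top_nc (hnab : ¬ ∀ a ∈ M, ∀ b ∈ M, a * b = b * a) :
    ¬ ⁅M, (⊤ : Subgroup G)⁆ ≤ Subgroup.center G := by
  have hMn := hM.normal
  intro hcen
  apply hnab
  obtain ⟨y, hy, hyc⟩ := Set.not_subset.1 hM.nc
  have hyM : y ∈ M := hy
  have hyc' : y ∉ Subgroup.center G := hyc
  have hnorm : ∀ v ∈ (Subgroup.center G ⊓ M), y * v * y⁻¹ ∈ (Subgroup.center G ⊓ M) := by
    rintro v ⟨hv1, hv2⟩
    rw [central_conj hv1]
    exact ⟨hv1, hv2⟩
  have hc : ∀ g : G, ∃ c ∈ (Subgroup.center G ⊓ M), g * y * g⁻¹ = y * c := by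
    intro g
    refine ⟨y⁻¹ * g * y * g⁻¹, ⟨?_, ?_⟩, by group⟩
    · apply hcen
      have := Subgroup.commutator_mem_commutator (M.inv_mem hyM) (Subgroup.mem_top g)
      rw [commutatorElement_def, inv_inv] at this
      exact this
    · have h1 : g * y * g⁻¹ ∈ M := hMn.conj_mem y hyM g
      have h2 := M.mul_mem (M.inv_mem hyM) h1
      have h3 : y⁻¹ * (g * y * g⁻¹) = y⁻¹ * g * y * g⁻¹ := by group
      rwa [h3] at h2
  set Y : Subgroup G := (Subgroup.center G ⊓ M) ⊔ Subgroup.zpowers y with hY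
  have hyY : y ∈ Y := (le_sup_right : _ ≤ Y) (Subgroup.mem_zpowers y)
  have hYn : Y.Normal := by
    constructor
    intro w hw g
    obtain ⟨v, hv, j, rfl⟩ := mem_sup_zpowers hnorm hw
    obtain ⟨c, hc1, hc2⟩ := hc g
    have h1 : g * (v * y ^ j) * g⁻¹ = (g * v * g⁻¹) * (g * y * g⁻¹) ^ j := by
      rw [conj_pow]; group
    have h2 : Commute y c := by
      show y * c = c * y
      exact central_comm hc1.1 y
    rw [h1, central_conj hv.1, hc2, h2.mul_pow]
    exact Y.mul_mem ((le_sup_left : _ ≤ Y) hv)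
      (Y.mul_mem (Y.pow_mem hyY j) ((le_sup_left : _ ≤ Y) (Subgroup.pow_mem _ hc1 j)))
  have hYM : Y ≤ M := sup_le inf_le_right (by rwa [Subgroup.zpowers_le])
  have hYe : Y = M := hM.min Y hYn hYM (fun h => hyc' (h hyY))
  intro a ha b hb
  rw [← hYe] at ha hb
  obtain ⟨v, hv, j, rfl⟩ := mem_sup_zpowers hnorm ha
  obtain ⟨v', hv', j', rfl⟩ := mem_sup_zpowers hnorm hb
  have e1 := central_comm hv.1 (y ^ j')
  have e2 := central_comm hv'.1 (v * y ^ j)
  calc v * y ^ j * (v' * y ^ j') = (v * y ^ j * v') * y ^ j' := by group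
    _ = v' * (v * y ^ j) * y ^ j' := by rw [e2]
    _ = v' * (v * (y ^ j * y ^ j')) := by group
    _ = v' * (v * (y ^ j' * y ^ j)) := by rw [← pow_add, ← pow_add, add_comm]
    _ = v' * ((v * y ^ j') * y ^ j) := by group
    _ = v' * ((y ^ j' * v) * y ^ j) := by rw [e1]
    _ = v' * y ^ j' * (v * y ^ j) := by group

lemma MinNC.comm_top (hnab : ¬ ∀ a ∈ M, ∀ b ∈ M, a * b = b * a)
    {U : Subgroup G} (hU : ∀ m ∈ M, ∀ g : G, m⁻¹ * g * m * g⁻¹ ∈ U) : M ≤ U := by
  have hMn := hM.normal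
  have h1 : ⁅M, (⊤ : Subgroup G)⁆ = M :=
    hM.min _ inferInstance (Subgroup.commutator_le_left M ⊤) (hM.comm_top_nc hnab)
  rw [← h1, Subgroup.commutator_le]
  intro a ha g _
  have := hU a⁻¹ (M.inv_mem ha) g
  rw [inv_inv] at this
  rw [commutatorElement_def]
  exact this

lemma MinNC.surj (hc : ⁅M, M⁆ ≤ Subgroup.center G) {u : G} (hu : u ∈ M)
    (huc : u ∉ Subgroup.center G) : ∀ z ∈ ⁅M, M⁆, ∃ h ∈ M, h * u * h⁻¹ * u⁻¹ = z := by
  have hMn := hM.normal
  have hcc : ∀ a ∈ M, ∀ b ∈ M, a * b * a⁻¹ * b⁻¹ ∈ Subgroup.center G := by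
    intro a ha b hb
    exact hc (Subgroup.commutator_mem_commutator ha hb)
  let R : Subgroup G :=
    { carrier := {z | ∃ h ∈ M, h * u * h⁻¹ * u⁻¹ = z}
      one_mem' := ⟨1, M.one_mem, by simp⟩
      mul_mem' := by
        rintro z z' ⟨h, hh, rfl⟩ ⟨h', hh', rfl⟩
        refine ⟨h * h', M.mul_mem hh hh', ?_⟩
        have h1 := central_comm (hcc h' hh' u hu) h
        calc h * h' * u * (h * h')⁻¹ * u⁻¹ = h * (h' * u * h'⁻¹ * u⁻¹) * (u * h⁻¹ * u⁻¹) := by
              group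
          _ = (h' * u * h'⁻¹ * u⁻¹) * h * (u * h⁻¹ * u⁻¹) := by rw [h1]
          _ = (h' * u * h'⁻¹ * u⁻¹) * (h * u * h⁻¹ * u⁻¹) := by group
          _ = (h * u * h⁻¹ * u⁻¹) * (h' * u * h'⁻¹ * u⁻¹) :=
              (central_comm (hcc h hh u hu) _)
      inv_mem' := by
        rintro z ⟨h, hh, rfl⟩
        refine ⟨h⁻¹, M.inv_mem hh, ?_⟩
        have h1 := central_conj (Subgroup.inv_mem _ (hcc h hh u hu)) h⁻¹
        rw [← h1]
        group }
  let Y : Subgroup G :=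
    { carrier := {y | y ∈ M ∧ ∀ m ∈ M, m * y * m⁻¹ * y⁻¹ ∈ R}
      one_mem' := ⟨M.one_mem, fun m _ => by simp⟩
      mul_mem' := by
        rintro y y' ⟨hy, hyR⟩ ⟨hy', hyR'⟩
        refine ⟨M.mul_mem hy hy', fun m hm => ?_⟩
        have h1 := central_comm (hcc m hm y' hy') (m * y * m⁻¹)
        have h2 : m * (y * y') * m⁻¹ * (y * y')⁻¹ =
            (m * y' * m⁻¹ * y'⁻¹) * (m * y * m⁻¹ * y⁻¹) := by
          calc m * (y * y') * m⁻¹ * (y * y')⁻¹ =
              ((m * y * m⁻¹) * (m * y' * m⁻¹ * y'⁻¹)) * y⁻¹ := by group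
            _ = ((m * y' * m⁻¹ * y'⁻¹) * (m * y * m⁻¹)) * y⁻¹ := by rw [h1]
            _ = _ := by group
        rw [h2]
        exact R.mul_mem (hyR' m hm) (hyR m hm)
      inv_mem' := by
        rintro y ⟨hy, hyR⟩
        refine ⟨M.inv_mem hy, fun m hm => ?_⟩
        have h1 := central_conj (Subgroup.inv_mem _ (hcc m hm y hy)) y⁻¹
        have h2 : m * y⁻¹ * m⁻¹ * y⁻¹⁻¹ = (m * y * m⁻¹ * y⁻¹)⁻¹ := by
          rw [← h1]; group
        rw [h2]
        exact R.inv_mem (hyR m hm) }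
  have hYn : Y.Normal := by
    constructor
    rintro y ⟨hy, hyR⟩ g
    refine ⟨hMn.conj_mem y hy g, fun m hm => ?_⟩
    have hm' : g⁻¹ * m * g ∈ M := by
      have := hMn.conj_mem m hm g⁻¹
      rwa [inv_inv] at this
    have h1 : m * (g * y * g⁻¹) * m⁻¹ * (g * y * g⁻¹)⁻¹ =
        g * ((g⁻¹ * m * g) * y * (g⁻¹ * m * g)⁻¹ * y⁻¹) * g⁻¹ := by group
    rw [h1, central_conj (hcc _ hm' y hy)]
    exact hyR _ hm'
  have huY : u ∈ Y := ⟨hu, fun m hm => ⟨m, hm, rfl⟩⟩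
  have hYe : Y = M := hM.min Y hYn (fun y hy => hy.1) (fun h => huc (h huY))
  have hle : ⁅M, M⁆ ≤ R := by
    rw [Subgroup.commutator_le]
    intro a ha b hb
    rw [commutatorElement_def]
    rw [← hYe] at hb
    exact hb.2 a ha
  intro z hz
  exact hle hz

lemma MinNC.prime (hc : ⁅M, M⁆ ≤ Subgroup.center G)
    (hnab : ¬ ∀ a ∈ M, ∀ b ∈ M, a * b = b * a) :
    ∃ p : ℕ, p.Prime ∧ ∀ u ∈ M, ∃ k, orderOf u = p ^ k := by
  classical
  have hMn := hM.normal
  have hcc : ∀ a ∈ M, ∀ b ∈ M, a * b * a⁻¹ * b⁻¹ ∈ ⁅M, M⁆ := by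
    intro a ha b hb
    exact Subgroup.commutator_mem_commutator ha hb
  have hcomm : ∀ N : Subgroup G, ∀ _ : N.Normal, ⁅M, M⁆ ≤ N → ∀ a ∈ M, ∀ b ∈ M,
      Commute (QuotientGroup.mk' N a) (QuotientGroup.mk' N b) := by
    intro N hN hle a ha b hb
    have h2 : QuotientGroup.mk' N (a * b * a⁻¹ * b⁻¹) = 1 := by
      rw [← MonoidHom.mem_ker, QuotientGroup.ker_mk']; exact hle (hcc a ha b hb)
    rw [map_mul, map_mul, map_mul, map_inv, map_inv] at h2
    have h3 := mul_inv_eq_one.1 h2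
    exact mul_inv_eq_iff_eq_mul.1 h3
  have hpowmem : ∀ N : Subgroup G, ∀ _ : N.Normal, ⁅M, M⁆ ≤ N → ∀ p : ℕ,
      ∀ a ∈ M, ∀ b ∈ M, a ^ p ∈ N → b ^ p ∈ N → (a * b) ^ p ∈ N := by
    intro N hN hle p a ha b hb h1 h2
    have h3 := hcomm N hN hle a ha b hb
    rw [← QuotientGroup.ker_mk' N, MonoidHom.mem_ker] at h1 h2 ⊢
    rw [map_pow] at h1 h2
    rw [map_pow, map_mul, h3.mul_pow, h1, h2, one_mul]
  -- step 1
  obtain ⟨x, hx, hxc⟩ := Set.not_subset.1 hM.nc
  have hxM : x ∈ M := hx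
  have hxc' : x ∉ Subgroup.center G := hxc
  have hex : ∃ n : ℕ, 0 < n ∧ x ^ n ∈ Subgroup.center G :=
    ⟨orderOf x, orderOf_pos x, by rw [pow_orderOf_eq_one]; exact Subgroup.one_mem _⟩
  set n := Nat.find hex with hn
  have hnspec : 0 < n ∧ x ^ n ∈ Subgroup.center G := Nat.find_spec hex
  have hn1 : n ≠ 1 := by
    intro h
    apply hxc'
    have := hnspec.2
    rwa [h, pow_one] at this
  have hp : (n.minFac).Prime := Nat.minFac_prime hn1
  set p := n.minFac with hpdef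
  have hpd : p ∣ n := Nat.minFac_dvd n
  have hy1 : x ^ (n / p) ∉ Subgroup.center G := by
    intro h
    have h1 : n ≤ n / p := Nat.find_min' hex ⟨Nat.div_pos (Nat.le_of_dvd hnspec.1 hpd) hp.pos, h⟩
    have h2 : n / p < n := Nat.div_lt_self hnspec.1 hp.one_lt
    omega
  have hy2 : (x ^ (n / p)) ^ p ∈ Subgroup.center G := by
    rw [← pow_mul, Nat.div_mul_cancel hpd]
    exact hnspec.2
  have step1 : ∀ a ∈ M, a ^ p ∈ Subgroup.center G := by
    let Y : Subgroup G :=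
      { carrier := {y | y ∈ M ∧ y ^ p ∈ Subgroup.center G}
        one_mem' := ⟨M.one_mem, by rw [one_pow]; exact Subgroup.one_mem _⟩
        mul_mem' := fun {a b} ha hb => ⟨M.mul_mem ha.1 hb.1,
          hpowmem _ inferInstance hc p a ha.1 b hb.1 ha.2 hb.2⟩
        inv_mem' := fun {a} ha => ⟨M.inv_mem ha.1, by
          rw [inv_pow]; exact Subgroup.inv_mem _ ha.2⟩ }
    have hYn : Y.Normal := by
      constructor
      rintro y ⟨hy, hyc⟩ g
      refine ⟨hMn.conj_mem y hy g, ?_⟩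
      rw [conj_pow, central_conj hyc]
      exact hyc
    have hYe : Y = M := hM.min Y hYn (fun y hy => hy.1)
      (fun h => hy1 (h ⟨M.pow_mem hxM _, hy2⟩))
    intro a ha
    rw [← hYe] at ha
    exact ha.2
  -- step 2
  have step2 : ∀ z ∈ ⁅M, M⁆, z ^ p = 1 := by
    let T : Subgroup G :=
      { carrier := {z | z ∈ Subgroup.center G ∧ z ^ p = 1}
        one_mem' := ⟨Subgroup.one_mem _, one_pow p⟩
        mul_mem' := fun {a b} ha hb => ⟨Subgroup.mul_mem _ ha.1 hb.1, by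
          have : Commute a b := central_comm hb.1 a
          rw [this.mul_pow, ha.2, hb.2, one_mul]⟩
        inv_mem' := fun {a} ha => ⟨Subgroup.inv_mem _ ha.1, by rw [inv_pow, ha.2, inv_one]⟩ }
    have hle : ⁅M, M⁆ ≤ T := by
      rw [Subgroup.commutator_le]
      intro a ha b hb
      rw [commutatorElement_def]
      refine ⟨hc (hcc a ha b hb), ?_⟩
      have h1 : (a * b * a⁻¹) ^ p = b ^ p := by
        rw [conj_pow, central_conj (step1 b hb)]
      have h2 : a * b * a⁻¹ = (a * b * a⁻¹ * b⁻¹) * b := by group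
      have h3 : Commute (a * b * a⁻¹ * b⁻¹) b := (central_comm (hc (hcc a ha b hb)) b).symm
      rw [h2, h3.mul_pow] at h1
      exact mul_eq_right.1 h1
    intro z hz
    exact (hle hz).2
  -- step 3
  have step3 : ∀ a ∈ M, a ^ p ∈ ⁅M, M⁆ := by
    let Y : Subgroup G :=
      { carrier := {y | y ∈ M ∧ y ^ p ∈ ⁅M, M⁆}
        one_mem' := ⟨M.one_mem, by rw [one_pow]; exact Subgroup.one_mem _⟩
        mul_mem' := fun {a b} ha hb => ⟨M.mul_mem ha.1 hb.1,
          hpowmem _ inferInstance le_rfl p a ha.1 b hb.1 ha.2 hb.2⟩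
        inv_mem' := fun {a} ha => ⟨M.inv_mem ha.1, by
          rw [inv_pow]; exact Subgroup.inv_mem _ ha.2⟩ }
    have hMY : M ≤ Y := by
      apply hM.comm_top hnab
      intro m hm g
      have hgm : g * m * g⁻¹ ∈ M := hMn.conj_mem m hm g
      have e : m⁻¹ * g * m * g⁻¹ = m⁻¹ * (g * m * g⁻¹) := by group
      refine ⟨by rw [e]; exact M.mul_mem (M.inv_mem hm) hgm, ?_⟩
      have h3 := hcomm ⁅M, M⁆ inferInstance le_rfl m⁻¹ (M.inv_mem hm) _ hgm
      rw [← QuotientGroup.ker_mk' ⁅M, M⁆, MonoidHom.mem_ker, e, map_pow, map_mul, h3.mul_pow,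
        ← map_pow, ← map_pow, ← map_mul, conj_pow, central_conj (step1 m hm), inv_pow,
        inv_mul_cancel, map_one]
    intro a ha
    exact (hMY ha).2
  refine ⟨p, hp, ?_⟩
  intro u hu
  have h1 : u ^ (p ^ 2) = 1 := by
    rw [pow_two, pow_mul]
    exact step2 _ (step3 u hu)
  obtain ⟨k, -, hk⟩ := (Nat.dvd_prime_pow hp).1 (orderOf_dvd_of_pow_eq_one h1)
  exact ⟨k, hk⟩

end

end Pool.Agent.H207.NL
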