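import Pool.Agent.H207.NL.Walk

/-!
# Lowering the subgroup of a closed walk
-/

set_option autoImplicit false

namespace Pool.Agent.H207.NL

universe u

variable {G : Type u} [Group G]

lemma mem_sup_zpowers [Finite G] {U : Subgroup G} {g : G} (hg : ∀ v ∈ U, g * v * g⁻¹ ∈ U) {w : G}
    (hw : w ∈ U ⊔ Subgroup.zpowers g) : ∃ v ∈ U, ∃ j : ℕ, w = v * g ^ j := by
  have hpow : ∀ k : ℕ, ∀ v ∈ U, g ^ k * v * (g ^ k)⁻¹ ∈ U := by
    intro k
    induction k with
    | zero => intro v hv; simpa using hv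
    | succ k ih =>
      intro v hv
      have : g ^ (k + 1) * v * (g ^ (k + 1))⁻¹ = g ^ k * (g * v * g⁻¹) * (g ^ k)⁻¹ := by
        rw [pow_succ]; group
      rw [this]
      exact ih _ (hg v hv)
  let S : Subgroup G :=
    { carrier := {w | ∃ v ∈ U, ∃ j : ℕ, w = v * g ^ j}
      one_mem' := ⟨1, U.one_mem, 0, by simp⟩
      mul_mem' := by
        rintro a b ⟨v, hv, j, rfl⟩ ⟨v', hv', j', rfl⟩
        refine ⟨v * (g ^ j * v' * (g ^ j)⁻¹), U.mul_mem hv (hpow j v' hv'), j + j', ?_⟩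
        rw [pow_add]; group
      inv_mem' := by
        rintro a ⟨v, hv, j, rfl⟩
        have hk : g ^ (orderOf g * j - j) = (g ^ j)⁻¹ := by
          have h1 : j ≤ orderOf g * j := Nat.le_mul_of_pos_left j (orderOf_pos g)
          rw [pow_sub _ h1, pow_mul, pow_orderOf_eq_one, one_pow, one_mul]
        refine ⟨(g ^ (orderOf g * j - j)) * v⁻¹ * (g ^ (orderOf g * j - j))⁻¹,
          hpow _ _ (U.inv_mem hv), orderOf g * j - j, ?_⟩
        rw [hk]; group }
  have hS : U ⊔ Subgroup.zpowers g ≤ S := by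
    refine sup_le (fun v hv => ⟨v, hv, 0, by simp⟩) ?_
    rw [Subgroup.zpowers_le]
    exact ⟨1, U.one_mem, 1, by simp⟩
  exact hS hw

lemma comm_sub [Finite G] {M U : Subgroup G} (hUM : U ≤ M) :
    ∃ H : Subgroup G, ∀ g, g ∈ H ↔ ∀ m ∈ M, m⁻¹ * g * m * g⁻¹ ∈ U := by
  let S : Submonoid G :=
    { carrier := {g | ∀ m ∈ M, m⁻¹ * g * m * g⁻¹ ∈ U}
      one_mem' := by intro m _; simp
      mul_mem' := by
        intro g h hg hh m hm
        have h1 := hh m hm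
        have h2 := hg _ (hUM h1)
        have h3 := hg m hm
        have : m⁻¹ * (g * h) * m * (g * h)⁻¹ = (m⁻¹ * g * m * g⁻¹) *
            ((m⁻¹ * h * m * h⁻¹) * ((m⁻¹ * h * m * h⁻¹)⁻¹ * g * (m⁻¹ * h * m * h⁻¹) * g⁻¹)) := by
          group
        rw [this]
        exact U.mul_mem h3 (U.mul_mem h1 h2) }
  refine ⟨{ S with
    inv_mem' := ?_ }, fun g => Iff.rfl⟩
  intro x hx
  have h1 : x⁻¹ = x ^ (orderOf x - 1) := by
    symm
    apply eq_inv_of_mul_eq_one_right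
    rw [← pow_succ', Nat.sub_add_cancel (orderOf_pos x), pow_orderOf_eq_one]
  rw [h1]
  exact S.pow_mem hx _

/-- there is a walk for `U` which uses, in the coset `K (x0 t)`, conjugates by elements of `M` of
the step of `x0` at `t`, and this very step if `t = t0` -/
def Good (A : Set G) (M K : Subgroup G) (x0 : ℕ → G) (l t0 : ℕ) (U : Subgroup G) : Prop :=
  ∃ (L : ℕ) (x : ℕ → G), HW A U L x ∧ ∀ n < L, ∀ t < l, x n * (x0 t)⁻¹ ∈ K →
    (∃ v ∈ M, (x n)⁻¹ * x (n + 1) = v⁻¹ * ((x0 t)⁻¹ * x0 (t + 1)) * v) ∧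
    (t = t0 → (x n)⁻¹ * x (n + 1) = (x0 t)⁻¹ * x0 (t + 1))

lemma exists_avail [Finite G] {A : Set G} {M K N : Subgroup G} (hKM : K ≤ M)
    (hMN : ∀ a ∈ M, ∀ b ∈ M, a * b * a⁻¹ * b⁻¹ ∈ N)
    {x0 : ℕ → G} {l : ℕ} (t0 : ℕ) (h0 : HW A K l x0)
    (hK : ∀ U : Subgroup G, N ≤ U → (∀ m ∈ M, ∀ g, m⁻¹ * g * m * g⁻¹ ∈ U) → K ≤ U)
    {U : Subgroup G} (hNU : N ≤ U) (hUK : U ≤ K) (hne : U ≠ K) :
    ∃ t < l, t ≠ t0 ∧ ∃ m ∈ M,
      m⁻¹ * (x0 (t + 1) * (x0 t)⁻¹) * m * (x0 (t + 1) * (x0 t)⁻¹)⁻¹ ∉ U := by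
  by_contra hcon
  push Not at hcon
  obtain ⟨H, hH⟩ := comm_sub (M := M) (U := U) (hUK.trans hKM)
  have hb : ∀ t < l, t ≠ t0 → x0 (t + 1) * (x0 t)⁻¹ ∈ H := fun t ht htt =>
    (hH _).2 (fun m hm => hcon t ht htt m hm)
  have hMH : ∀ k ∈ M, k ∈ H := by
    intro k hk
    rw [hH]
    intro m hm
    refine hNU ?_
    have := hMN m⁻¹ (M.inv_mem hm) k hk
    rwa [inv_inv] at this
  have hfw : ∀ t, t ≤ l → t ≤ t0 → x0 t ∈ H := by
    intro t
    induction t with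
    | zero => intro _ _; rw [h0.zero]; exact H.one_mem
    | succ t ih =>
      intro h1 h2
      have h3 := ih (by omega) (by omega)
      have h4 := H.mul_mem (hb t (by omega) (by omega)) h3
      simpa using h4
  have hbw : ∀ s, ∀ t, t + s = l → t0 < t → x0 t ∈ H := by
    intro s
    induction s with
    | zero =>
      intro t ht _
      have : t = l := by omega
      subst this
      exact hMH _ (hKM h0.last)
    | succ s ih =>
      intro t ht htt
      have h3 := ih (t + 1) (by omega) (by omega)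
      have h4 := H.mul_mem (H.inv_mem (hb t (by omega) (by omega))) h3
      have : (x0 (t + 1) * (x0 t)⁻¹)⁻¹ * x0 (t + 1) = x0 t := by group
      rwa [this] at h4
  have hall : ∀ t < l, x0 t ∈ H := by
    intro t ht
    rcases Nat.lt_or_ge t0 t with h | h
    · exact hbw (l - t) t (by omega) h
    · exact hfw t ht.le h
  have hKU : K ≤ U := by
    refine hK U hNU ?_
    intro m hm g
    have hg : g ∈ H := by
      obtain ⟨n, hn, hgn⟩ := h0.cover g
      have := H.mul_mem (hMH _ (hKM hgn)) (hall n hn)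
      simpa using this
    exact (hH g).1 hg m hm
  exact hne (le_antisymm hUK hKU)

theorem good_of [Finite G] {A : Set G} {M K N : Subgroup G} [M.Normal] [K.Normal] [N.Normal]
    (hKM : K ≤ M) (hNK : N ≤ K)
    (hMN : ∀ a ∈ M, ∀ b ∈ M, a * b * a⁻¹ * b⁻¹ ∈ N)
    (hMK : ∀ m ∈ M, ∀ g, m⁻¹ * g * m * g⁻¹ ∈ K)
    (hAM : ∀ a ∈ A, ∀ m ∈ M, m⁻¹ * a * m ∈ A)
    {x0 : ℕ → G} {l : ℕ} (t0 : ℕ) (h0 : HW A K l x0)
    (hK : ∀ U : Subgroup G, N ≤ U → (∀ m ∈ M, ∀ g, m⁻¹ * g * m * g⁻¹ ∈ U) → K ≤ U)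
    (U : Subgroup G) (hNU : N ≤ U) (hUK : U ≤ K) : Good A M K x0 l t0 U := by
  classical
  induction U using WellFoundedGT.induction with
  | ind U ih =>
  by_cases hEq : U = K
  · subst hEq
    refine ⟨l, x0, h0, ?_⟩
    intro n hn t ht hnt
    have := h0.inj n hn t ht hnt
    subst this
    exact ⟨⟨1, M.one_mem, by simp⟩, fun _ => rfl⟩
  have hav := exists_avail hKM hMN t0 h0 hK hNU hUK hEq
  set b : ℕ → G := fun t => x0 (t + 1) * (x0 t)⁻¹ with hbdef
  let F : G → Prop := fun k => ∃ t < l, t ≠ t0 ∧ ∃ m ∈ M, k * (m⁻¹ * b t * m * (b t)⁻¹)⁻¹ ∈ N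
  have hFne : ({k | F k ∧ k ∉ U} : Set G).Nonempty := by
    obtain ⟨t, ht, htt, m, hm, hmU⟩ := hav
    exact ⟨m⁻¹ * b t * m * (b t)⁻¹, ⟨t, ht, htt, m, hm, by simp⟩, hmU⟩
  obtain ⟨k, ⟨hkF, hkU⟩, hkmin⟩ := Set.exists_min_image {k | F k ∧ k ∉ U}
    (fun k => Nat.card ↥(U ⊔ Subgroup.zpowers k)) (Set.toFinite _) hFne
  have hkK : k ∈ K := by
    obtain ⟨t, ht, htt, m, hm, hmN⟩ := hkF
    have h1 := K.mul_mem (hNK hmN) (hMK m hm (b t))
    rwa [inv_mul_cancel_right] at h1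
  have hnorm : ∀ g ∈ K, ∀ v ∈ U, g * v * g⁻¹ ∈ U := by
    intro g hg v hv
    have h1 := U.mul_mem (hNU (hMN g (hKM hg) v (hKM (hUK hv)))) hv
    simpa using h1
  have hU1K : U ⊔ Subgroup.zpowers k ≤ K := sup_le hUK (by rwa [Subgroup.zpowers_le])
  have hkU1 : k ∈ U ⊔ Subgroup.zpowers k :=
    (le_sup_right : _ ≤ U ⊔ Subgroup.zpowers k) (Subgroup.mem_zpowers k)
  have hlt : U < U ⊔ Subgroup.zpowers k := by
    refine lt_of_le_of_ne le_sup_left ?_
    intro h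
    rw [← h] at hkU1
    exact hkU hkU1
  have hcomm : ∀ a ∈ M, ∀ c ∈ M, Commute (QuotientGroup.mk' N a) (QuotientGroup.mk' N c) := by
    intro a ha c hc
    have h1 := hMN a ha c hc
    have h2 : QuotientGroup.mk' N (a * c * a⁻¹ * c⁻¹) = 1 := by
      rw [← MonoidHom.mem_ker, QuotientGroup.ker_mk']; exact h1
    rw [map_mul, map_mul, map_mul, map_inv, map_inv] at h2
    have h3 := mul_inv_eq_one.1 h2
    exact mul_inv_eq_iff_eq_mul.1 h3
  have hFpow : ∀ i : ℕ, F (k ^ i) := by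
    intro i
    obtain ⟨t, ht, htt, m, hm, hmN⟩ := hkF
    refine ⟨t, ht, htt, m ^ i, M.pow_mem hm i, ?_⟩
    have e1 : QuotientGroup.mk' N k = QuotientGroup.mk' N m⁻¹ *
        QuotientGroup.mk' N (b t * m * (b t)⁻¹) := by
      have h2 : QuotientGroup.mk' N (k * (m⁻¹ * b t * m * (b t)⁻¹)⁻¹) = 1 := by
        rw [← MonoidHom.mem_ker, QuotientGroup.ker_mk']; exact hmN
      rw [map_mul, map_inv] at h2
      have h3 := mul_inv_eq_one.1 h2
      rw [h3, ← map_mul]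
      congr 1
      group
    have hc := hcomm m⁻¹ (M.inv_mem hm) (b t * m * (b t)⁻¹)
      (Subgroup.Normal.conj_mem inferInstance m hm _)
    have e2 : QuotientGroup.mk' N (k ^ i) = QuotientGroup.mk' N ((m ^ i)⁻¹ * b t * m ^ i *
        (b t)⁻¹) := by
      rw [map_pow, e1, hc.mul_pow, ← map_pow, ← map_pow, ← map_mul]
      congr 1
      rw [inv_pow, conj_pow]
      group
    rw [← QuotientGroup.ker_mk' N, MonoidHom.mem_ker, map_mul, map_inv, e2, mul_inv_cancel]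
  have hkey : ∀ g ∈ U ⊔ Subgroup.zpowers k, g ∉ U → ∀ w ∈ U ⊔ Subgroup.zpowers k,
      ∃ j : ℕ, w * (g ^ j)⁻¹ ∈ U := by
    intro g hg hgU w hw
    obtain ⟨v, hv, i, hgi⟩ := mem_sup_zpowers (hnorm k hkK) hg
    have hkiU : k ^ i ∉ U := by
      intro h
      apply hgU
      rw [hgi]
      exact U.mul_mem hv h
    have h1 := hkmin (k ^ i) ⟨hFpow i, hkiU⟩
    have h2 : U ⊔ Subgroup.zpowers (k ^ i) ≤ U ⊔ Subgroup.zpowers k := by
      refine sup_le le_sup_left ?_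
      rw [Subgroup.zpowers_le]
      exact Subgroup.pow_mem _ hkU1 i
    have h3 : U ⊔ Subgroup.zpowers (k ^ i) = U ⊔ Subgroup.zpowers k :=
      Subgroup.eq_of_le_of_card_ge h2 h1
    have h4 : U ⊔ Subgroup.zpowers (k ^ i) ≤ U ⊔ Subgroup.zpowers g := by
      refine sup_le le_sup_left ?_
      rw [Subgroup.zpowers_le]
      have h5 : k ^ i = v⁻¹ * g := by rw [hgi]; group
      rw [h5]
      exact Subgroup.mul_mem _ ((le_sup_left : U ≤ _) (U.inv_mem hv))
        ((le_sup_right : _ ≤ U ⊔ Subgroup.zpowers g) (Subgroup.mem_zpowers g))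
    rw [← h3] at hw
    obtain ⟨v', hv', j, hj⟩ := mem_sup_zpowers (hnorm g (hU1K hg)) (h4 hw)
    refine ⟨j, ?_⟩
    rw [hj]
    simpa using hv'
  obtain ⟨L, x, hx, hlab⟩ := ih _ hlt (hNU.trans le_sup_left) hU1K
  have hLpos := hx.pos
  -- adjust the walk
  have hy : ∃ y : ℕ → G, HW A (U ⊔ Subgroup.zpowers k) L y ∧ y L ∉ U ∧
      ∀ n < L, ∀ t < l, y n * (x0 t)⁻¹ ∈ K →
        (∃ v ∈ M, (y n)⁻¹ * y (n + 1) = v⁻¹ * ((x0 t)⁻¹ * x0 (t + 1)) * v) ∧
        (t = t0 → (y n)⁻¹ * y (n + 1) = (x0 t)⁻¹ * x0 (t + 1)) := by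
    by_cases hxL : x L ∈ U
    · obtain ⟨t, ht, htt, m, hm, hmN⟩ := hkF
      obtain ⟨s, hs, hts⟩ := hx.cover (x0 t)
      have hw : x s * (x0 t)⁻¹ ∈ U ⊔ Subgroup.zpowers k := by
        have := Subgroup.inv_mem _ hts
        simpa using this
      have hwK := hU1K hw
      obtain ⟨⟨v, hv, hvl⟩, -⟩ := hlab s hs t ht hwK
      set e : G := (x s * (x0 t)⁻¹) * (x0 t * v⁻¹ * (x0 t)⁻¹) with he
      have heM : e ∈ M := M.mul_mem (hKM hwK)
        (Subgroup.Normal.conj_mem inferInstance _ (M.inv_mem hv) _)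
      set c : G := m⁻¹ * b t * m * (b t)⁻¹ with hc
      have hcM : c ∈ M := hKM (hMK m hm (b t))
      set w : G := e * c * e⁻¹ with hwdef
      have hwk : w * k⁻¹ ∈ N := by
        have h1 := N.mul_mem (hMN e heM c hcM) (N.inv_mem hmN)
        have h2 : e * c * e⁻¹ * c⁻¹ * (k * c⁻¹)⁻¹ = w * k⁻¹ := by rw [hwdef]; group
        rwa [h2] at h1
      have hwU1 : w ∈ U ⊔ Subgroup.zpowers k := by
        have h1 := Subgroup.mul_mem _ ((le_sup_left : U ≤ U ⊔ Subgroup.zpowers k) (hNU hwk)) hkU1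
        simpa using h1
      have hwU : w ∉ U := by
        intro h
        apply hkU
        have h1 := U.mul_mem (U.inv_mem (hNU hwk)) h
        have h2 : (w * k⁻¹)⁻¹ * w = k := by group
        rwa [h2] at h1
      have hlabel : (x s)⁻¹ * (w * x (s + 1)) =
          ((x0 t)⁻¹ * m * x0 t * v)⁻¹ * ((x0 t)⁻¹ * x0 (t + 1)) * ((x0 t)⁻¹ * m * x0 t * v) := by
        have h1 : x (s + 1) = x s * (v⁻¹ * ((x0 t)⁻¹ * x0 (t + 1)) * v) := by
          rw [← hvl]; group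
        rw [h1, hwdef, hc, he, hbdef]
        group
      have hthM : (x0 t)⁻¹ * m * x0 t * v ∈ M := by
        refine M.mul_mem ?_ hv
        have := Subgroup.Normal.conj_mem (inferInstance : M.Normal) m hm (x0 t)⁻¹
        rwa [inv_inv] at this
      refine ⟨shift x s w, ?_, ?_, ?_⟩
      · refine hx.shift hs hwU1 ?_
        rw [hlabel]
        exact hAM _ (h0.step t ht) _ hthM
      · rw [shift_gt hs]
        intro h
        apply hwU
        have h1 := U.mul_mem h (U.inv_mem hxL)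
        simpa using h1
      · intro n hn t' ht' hnt
        obtain ⟨u, hu, hue⟩ := shift_mem (x := x) (t := s) hwU1 n
        have hxn : x n * (x0 t')⁻¹ ∈ K := by
          have h1 := K.mul_mem (K.inv_mem (hU1K hu)) hnt
          rw [hue] at h1
          have h2 : u⁻¹ * (u * x n * (x0 t')⁻¹) = x n * (x0 t')⁻¹ := by group
          rwa [h2] at h1
        by_cases hns : n = s
        · subst hns
          have htt' : t = t' := by
            refine h0.inj t ht t' ht' ?_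
            have h1 := K.mul_mem (K.inv_mem hwK) hxn
            have h2 : (x n * (x0 t)⁻¹)⁻¹ * (x n * (x0 t')⁻¹) = x0 t * (x0 t')⁻¹ := by group
            rwa [h2] at h1
          subst htt'
          rw [shift_label_self, hlabel]
          exact ⟨⟨_, hthM, rfl⟩, fun h => absurd h htt⟩
        · rw [shift_label hns]
          exact hlab n hn t' ht' hxn
    · exact ⟨x, hx, hxL, hlab⟩
  obtain ⟨y, hy, hyL, hylab⟩ := hy
  obtain ⟨q, hq, hz⟩ := hy.rept (U := U) le_sup_left (hkey _ hy.last hyL)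
  refine ⟨q * L, rept y L, hz, ?_⟩
  intro n hn t ht hnt
  have hr : n % L < L := Nat.mod_lt _ hLpos
  have h1 : y (n % L) * (x0 t)⁻¹ ∈ K := by
    have h2 := K.mul_mem (K.inv_mem (K.pow_mem (hU1K hy.last) (n / L))) hnt
    have h3 : (y L ^ (n / L))⁻¹ * (rept y L n * (x0 t)⁻¹) = y (n % L) * (x0 t)⁻¹ := by
      unfold rept; group
    rwa [h3] at h2
  rw [rept_label hy.zero hLpos]
  exact hylab _ hr t ht h1

end Pool.Agent.H207.NL
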