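import Mathlib

/-!
# Closed walks that meet every coset of a subgroup once
-/

set_option autoImplicit false

namespace Pool.Agent.H207.NL

universe u

variable {G : Type u} [Group G]

/-- `x 0 = 1, x 1, ..., x L` is a walk with steps (right multiplications) in `A` which ends in the
subgroup `U` and whose points `x 0, ..., x (L-1)` represent every right coset of `U` once. -/
structure HW (A : Set G) (U : Subgroup G) (L : ℕ) (x : ℕ → G) : Prop where
  zero : x 0 = 1
  step : ∀ n < L, (x n)⁻¹ * x (n + 1) ∈ A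
  last : x L ∈ U
  cover : ∀ g : G, ∃ n < L, g * (x n)⁻¹ ∈ U
  inj : ∀ i < L, ∀ j < L, x i * (x j)⁻¹ ∈ U → i = j

/-- shift the walk after time `t` by `w` from the left -/
def shift (x : ℕ → G) (t : ℕ) (w : G) (n : ℕ) : G := if n ≤ t then x n else w * x n

/-- repeat the walk -/
def rept (x : ℕ → G) (L : ℕ) (n : ℕ) : G := x L ^ (n / L) * x (n % L)

lemma shift_le {x : ℕ → G} {t : ℕ} {w : G} {n : ℕ} (h : n ≤ t) : shift x t w n = x n := by
  simp [shift, h]

lemma shift_gt {x : ℕ → G} {t : ℕ} {w : G} {n : ℕ} (h : t < n) : shift x t w n = w * x n := by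
  simp [shift, Nat.not_le.2 h]

lemma shift_label {x : ℕ → G} {t : ℕ} {w : G} {n : ℕ} (h : n ≠ t) :
    (shift x t w n)⁻¹ * shift x t w (n + 1) = (x n)⁻¹ * x (n + 1) := by
  rcases lt_or_gt_of_ne h with h | h
  · rw [shift_le h.le, shift_le (by omega)]
  · rw [shift_gt h, shift_gt (by omega)]
    group

lemma shift_label_self {x : ℕ → G} {t : ℕ} {w : G} :
    (shift x t w t)⁻¹ * shift x t w (t + 1) = (x t)⁻¹ * (w * x (t + 1)) := by
  rw [shift_le le_rfl, shift_gt (by omega)]

lemma shift_mem {x : ℕ → G} {t : ℕ} {w : G} {U : Subgroup G} (hw : w ∈ U) (n : ℕ) :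
    ∃ v ∈ U, shift x t w n = v * x n := by
  by_cases h : n ≤ t
  · exact ⟨1, U.one_mem, by rw [shift_le h, one_mul]⟩
  · exact ⟨w, hw, shift_gt (by omega)⟩

lemma HW.pos {A : Set G} {U : Subgroup G} {L : ℕ} {x : ℕ → G} (h : HW A U L x) : 0 < L := by
  obtain ⟨n, hn, -⟩ := h.cover 1
  omega

lemma HW.shift {A : Set G} {U : Subgroup G} {L : ℕ} {x : ℕ → G} (h : HW A U L x) {t : ℕ}
    (ht : t < L) {w : G} (hw : w ∈ U) (ha : (x t)⁻¹ * (w * x (t + 1)) ∈ A) :
    HW A U L (shift x t w) := by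
  have hmem := shift_mem (x := x) (t := t) hw
  refine ⟨?_, ?_, ?_, ?_, ?_⟩
  · rw [shift_le (Nat.zero_le _), h.zero]
  · intro n hn
    by_cases hnt : n = t
    · subst hnt
      rw [shift_label_self]
      exact ha
    · rw [shift_label hnt]
      exact h.step n hn
  · obtain ⟨v, hv, e⟩ := hmem L
    rw [e]
    exact U.mul_mem hv h.last
  · intro g
    obtain ⟨n, hn, hg⟩ := h.cover g
    refine ⟨n, hn, ?_⟩
    obtain ⟨v, hv, e⟩ := hmem n
    rw [e, mul_inv_rev, ← mul_assoc]
    exact U.mul_mem hg (U.inv_mem hv)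
  · intro i hi j hj hij
    obtain ⟨v, hv, e⟩ := hmem i
    obtain ⟨v', hv', e'⟩ := hmem j
    rw [e, e'] at hij
    refine h.inj i hi j hj ?_
    have : x i * (x j)⁻¹ = v⁻¹ * (v * x i * (v' * x j)⁻¹) * v' := by group
    rw [this]
    exact U.mul_mem (U.mul_mem (U.inv_mem hv) hij) hv'

lemma rept_lt {x : ℕ → G} {L n : ℕ} (hn : n < L) : rept x L n = x n := by
  simp [rept, Nat.div_eq_of_lt hn, Nat.mod_eq_of_lt hn]

lemma rept_succ {x : ℕ → G} {L n : ℕ} (h0 : x 0 = 1) (hn : n < L) :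
    rept x L (n + 1) = x (n + 1) := by
  rcases Nat.lt_or_ge (n + 1) L with h | h
  · exact rept_lt h
  · have e : n + 1 = L := by omega
    rw [e]
    have hL : 0 < L := by omega
    simp [rept, Nat.div_self hL, Nat.mod_self, h0]

lemma rept_label {x : ℕ → G} {L : ℕ} (h0 : x 0 = 1) (hL : 0 < L) (n : ℕ) :
    (rept x L n)⁻¹ * rept x L (n + 1) = (x (n % L))⁻¹ * x (n % L + 1) := by
  have hr : n % L < L := Nat.mod_lt n hL
  have hn : n = L * (n / L) + n % L := (Nat.div_add_mod n L).symm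
  set q := n / L with hq
  set r := n % L with hrr
  rcases Nat.lt_or_ge (r + 1) L with h | h
  · have e1 : (n + 1) / L = q := by
      rw [hn, add_assoc, Nat.mul_add_div hL, Nat.div_eq_of_lt h, add_zero]
    have e2 : (n + 1) % L = r + 1 := by
      rw [hn, add_assoc, Nat.mul_add_mod, Nat.mod_eq_of_lt h]
    unfold rept
    rw [e1, e2, ← hq, ← hrr]
    group
  · have e : r + 1 = L := by omega
    have e1 : (n + 1) / L = q + 1 := by
      rw [hn, add_assoc, e, Nat.mul_add_div hL, Nat.div_self hL]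
    have e2 : (n + 1) % L = 0 := by
      rw [hn, add_assoc, e, Nat.mul_add_mod, Nat.mod_self]
    unfold rept
    rw [e1, e2, ← hq, ← hrr, h0, e, pow_succ]
    group

lemma HW.rept [Finite G] {A : Set G} {U' : Subgroup G} {L : ℕ} {x : ℕ → G} (h : HW A U' L x)
    {U : Subgroup G} (hU : U ≤ U') (hgen : ∀ w ∈ U', ∃ j : ℕ, w * (x L ^ j)⁻¹ ∈ U) :
    ∃ m : ℕ, 0 < m ∧ HW A U (m * L) (rept x L) := by
  classical
  have hL := h.pos
  have hex : ∃ m : ℕ, 0 < m ∧ x L ^ m ∈ U :=
    ⟨orderOf (x L), orderOf_pos _, by rw [pow_orderOf_eq_one]; exact U.one_mem⟩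
  let m := Nat.find hex
  have hm : 0 < m ∧ x L ^ m ∈ U := Nat.find_spec hex
  have hmin : ∀ k, 0 < k → x L ^ k ∈ U → m ≤ k := fun k h1 h2 => Nat.find_min' hex ⟨h1, h2⟩
  have hdvd : ∀ k, x L ^ (m * k) ∈ U := by
    intro k
    rw [pow_mul]
    exact U.pow_mem hm.2 k
  refine ⟨m, hm.1, ?_, ?_, ?_, ?_, ?_⟩
  · simp [NL.rept, h.zero]
  · intro n hn
    rw [rept_label h.zero hL]
    exact h.step _ (Nat.mod_lt _ hL)
  · have : NL.rept x L (m * L) = x L ^ m := by
      simp [NL.rept, Nat.mul_div_cancel _ hL, h.zero]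
    rw [this]
    exact hm.2
  · intro g
    obtain ⟨n, hn, hg⟩ := h.cover g
    obtain ⟨j, hj⟩ := hgen _ hg
    have hq : j % m < m := Nat.mod_lt _ hm.1
    refine ⟨(j % m) * L + n, ?_, ?_⟩
    · calc (j % m) * L + n < (j % m) * L + L := by omega
        _ = (j % m + 1) * L := by ring
        _ ≤ m * L := Nat.mul_le_mul_right _ hq
    · have e1 : ((j % m) * L + n) / L = j % m := by
        rw [mul_comm, Nat.mul_add_div hL, Nat.div_eq_of_lt hn, add_zero]
      have e2 : ((j % m) * L + n) % L = n := by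
        rw [mul_comm, Nat.mul_add_mod, Nat.mod_eq_of_lt hn]
      unfold NL.rept
      rw [e1, e2]
      have e3 : x L ^ j = x L ^ (j % m) * x L ^ (m * (j / m)) := by
        rw [← pow_add, Nat.mod_add_div]
      have e4 : g * (x L ^ (j % m) * x n)⁻¹ =
          (g * (x n)⁻¹ * (x L ^ j)⁻¹) * (x L ^ (m * (j / m))) := by
        have : x L ^ j = x L ^ (m * (j / m)) * x L ^ (j % m) := by
          rw [← pow_add, Nat.div_add_mod]
        rw [this]
        group
      rw [e4]
      exact U.mul_mem hj (hdvd _)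
  · intro i hi j hj hij
    unfold NL.rept at hij
    have hi' : i % L < L := Nat.mod_lt _ hL
    have hj' : j % L < L := Nat.mod_lt _ hL
    have hgi : ∀ k : ℕ, x L ^ k ∈ U' := fun k => U'.pow_mem h.last k
    have h1 : x (i % L) * (x (j % L))⁻¹ ∈ U' := by
      have : x (i % L) * (x (j % L))⁻¹ =
          (x L ^ (i / L))⁻¹ * (x L ^ (i / L) * x (i % L) * (x L ^ (j / L) * x (j % L))⁻¹) *
            x L ^ (j / L) := by group
      rw [this]
      exact U'.mul_mem (U'.mul_mem (U'.inv_mem (hgi _)) (hU hij)) (hgi _)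
    have h2 := h.inj _ hi' _ hj' h1
    rw [h2] at hij
    have h3 : x L ^ (i / L) * (x L ^ (j / L))⁻¹ ∈ U := by
      have : x L ^ (i / L) * (x L ^ (j / L))⁻¹ =
        x L ^ (i / L) * x (j % L) * (x L ^ (j / L) * x (j % L))⁻¹ := by group
      rw [this]
      exact hij
    have hiq : i / L < m := by
      rw [Nat.div_lt_iff_lt_mul hL]
      exact hi
    have hjq : j / L < m := by
      rw [Nat.div_lt_iff_lt_mul hL]
      exact hj
    have h4 : i / L = j / L := by
      rcases lt_trichotomy (i / L) (j / L) with h5 | h5 | h5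
      · exfalso
        have h6 : x L ^ (j / L - i / L) ∈ U := by
          have h7 := U.inv_mem h3
          have h8 : (x L ^ (i / L) * (x L ^ (j / L))⁻¹)⁻¹ = x L ^ (j / L - i / L) := by
            rw [mul_inv_rev, inv_inv, pow_sub _ h5.le]
          rwa [h8] at h7
        have := hmin _ (Nat.sub_pos_of_lt h5) h6
        exact absurd ((this.trans (Nat.sub_le _ _)).trans_lt hjq) (lt_irrefl _)
      · exact h5
      · exfalso
        have h6 : x L ^ (i / L - j / L) ∈ U := by
          rw [pow_sub _ h5.le]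
          exact h3
        have := hmin _ (Nat.sub_pos_of_lt h5) h6
        exact absurd ((this.trans (Nat.sub_le _ _)).trans_lt hiq) (lt_irrefl _)
    rw [← Nat.div_add_mod i L, ← Nat.div_add_mod j L, h4, h2]

end Pool.Agent.H207.NL
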